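import Mathlib

/-!
The diagonal terms of a resonance sum are bounded by a GCD sum.
-/

open Finset

set_option linter.unusedSectionVars false
set_option linter.unusedVariables false

namespace Pool.Agent.H.MP_3e6494_nt.h26t

/-- the values of a nonincreasing sequence along the multiples of `d` -/
theorem sum_multiples (M : ℕ) (c : ℕ → ℝ) (hc0 : ∀ m, 0 ≤ c m)
    (hc : ∀ m n, 1 ≤ m → m ≤ n → c n ≤ c m) (d : ℕ) (hd : 0 < d) :
    (d : ℝ) * ∑ m ∈ (Finset.Icc 1 M).filter (fun m => d ∣ m), c m ^ 2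
      ≤ ∑ m ∈ Finset.Icc 1 M, c m ^ 2 := by
  classical
  set F := (Finset.Icc 1 M).filter (fun m => d ∣ m) with hF
  have hFm : ∀ m ∈ F, 1 ≤ m ∧ m ≤ M ∧ d ∣ m ∧ d ≤ m := by
    intro m hm
    rw [hF, Finset.mem_filter, Finset.mem_Icc] at hm
    exact ⟨hm.1.1, hm.1.2, hm.2, Nat.le_of_dvd hm.1.1 hm.2⟩
  have hinj : Set.InjOn (fun z : ℕ × ℕ => z.1 - z.2) ((F ×ˢ Finset.range d : Finset (ℕ × ℕ)) :
      Set (ℕ × ℕ)) := by
    rintro ⟨m, j⟩ hz ⟨m', j'⟩ hz' h
    rw [Finset.mem_coe, Finset.mem_product, Finset.mem_range] at hz hz'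
    simp only at hz hz' h
    obtain ⟨h1, h2, h3, h4⟩ := hFm m hz.1
    obtain ⟨h1', h2', h3', h4'⟩ := hFm m' hz'.1
    obtain ⟨a, rfl⟩ := h3
    obtain ⟨b, rfl⟩ := h3'
    have hj := hz.2
    have hj' := hz'.2
    have hab : a = b := by
      rcases lt_trichotomy a b with hlt | heq | hgt
      · exfalso
        have : d * (a + 1) ≤ d * b := Nat.mul_le_mul_left d hlt
        rw [Nat.mul_add, Nat.mul_one] at this
        omega
      · exact heq
      · exfalso
        have : d * (b + 1) ≤ d * a := Nat.mul_le_mul_left d hgt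
        rw [Nat.mul_add, Nat.mul_one] at this
        omega
    subst hab
    have : j = j' := by omega
    rw [this]
  calc (d : ℝ) * ∑ m ∈ F, c m ^ 2 = ∑ z ∈ F ×ˢ Finset.range d, c z.1 ^ 2 := by
        rw [Finset.sum_product, Finset.mul_sum]
        apply Finset.sum_congr rfl
        intro m _
        simp only
        rw [Finset.sum_const, Finset.card_range, nsmul_eq_mul]
    _ ≤ ∑ z ∈ F ×ˢ Finset.range d, c (z.1 - z.2) ^ 2 := by
        apply Finset.sum_le_sum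
        rintro ⟨m, j⟩ hz
        rw [Finset.mem_product, Finset.mem_range] at hz
        simp only at hz ⊢
        obtain ⟨h1, h2, h3, h4⟩ := hFm m hz.1
        have hj := hz.2
        exact pow_le_pow_left₀ (hc0 m) (hc (m - j) m (by omega) (by omega)) 2
    _ = ∑ m ∈ (F ×ˢ Finset.range d).image (fun z : ℕ × ℕ => z.1 - z.2), c m ^ 2 := by
        rw [Finset.sum_image hinj]
    _ ≤ ∑ m ∈ Finset.Icc 1 M, c m ^ 2 := by
        apply Finset.sum_le_sum_of_subset_of_nonneg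
        · intro w hw
          rw [Finset.mem_image] at hw
          obtain ⟨⟨m, j⟩, hz, rfl⟩ := hw
          rw [Finset.mem_product, Finset.mem_range] at hz
          simp only at hz ⊢
          obtain ⟨h1, h2, h3, h4⟩ := hFm m hz.1
          have hj := hz.2
          rw [Finset.mem_Icc]
          omega
        · intro m _ _
          positivity

/-- the sum over the solutions of `m X = m' X'` -/
theorem diag_pair {γ : Type*} (R : Finset γ) (s t : γ → ℕ) (M : ℕ) (c : ℕ → ℝ)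
    (hc0 : ∀ m, 0 ≤ c m) (hc : ∀ m n, 1 ≤ m → m ≤ n → c n ≤ c m) (X X' : ℕ) (hX : 0 < X)
    (hX' : 0 < X') (hs : ∀ z ∈ R, s z ∈ Finset.Icc 1 M) (ht : ∀ z ∈ R, t z ∈ Finset.Icc 1 M)
    (hsi : Set.InjOn s R) (hti : Set.InjOn t R) (hrel : ∀ z ∈ R, s z * X = t z * X') :
    ∑ z ∈ R, c (s z) * c (t z) ≤
      ((Nat.gcd X X' : ℕ) : ℝ) / Real.sqrt ((X : ℝ) * (X' : ℝ)) * ∑ m ∈ Finset.Icc 1 M, c m ^ 2 := by
  classical
  set S : ℝ := ∑ m ∈ Finset.Icc 1 M, c m ^ 2 with hS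
  have hS0 : 0 ≤ S := Finset.sum_nonneg fun m _ => by positivity
  set g := Nat.gcd X X' with hg
  have hg0 : 0 < g := Nat.gcd_pos_of_pos_left _ hX
  obtain ⟨X1, hX1⟩ : g ∣ X := Nat.gcd_dvd_left _ _
  obtain ⟨X1', hX1'⟩ : g ∣ X' := Nat.gcd_dvd_right _ _
  have hX1p : 0 < X1 := by
    rcases Nat.eq_zero_or_pos X1 with h | h
    · rw [h, Nat.mul_zero] at hX1; omega
    · exact h
  have hX1p' : 0 < X1' := by
    rcases Nat.eq_zero_or_pos X1' with h | h
    · rw [h, Nat.mul_zero] at hX1'; omega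
    · exact h
  have hcop : Nat.Coprime X1 X1' := by
    have h1 := Nat.coprime_div_gcd_div_gcd (m := X) (n := X') hg0
    rw [← hg] at h1
    have h2 : X / g = X1 := by rw [hX1, Nat.mul_div_cancel_left _ hg0]
    have h3 : X' / g = X1' := by rw [hX1', Nat.mul_div_cancel_left _ hg0]
    rw [h2, h3] at h1
    exact h1
  have hrel' : ∀ z ∈ R, s z * X1 = t z * X1' := by
    intro z hz
    have h1 := hrel z hz
    rw [hX1, hX1'] at h1
    have h2 : g * (s z * X1) = g * (t z * X1') := by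
      calc g * (s z * X1) = s z * (g * X1) := by ring
        _ = t z * (g * X1') := h1
        _ = g * (t z * X1') := by ring
    exact Nat.eq_of_mul_eq_mul_left hg0 h2
  have hsd : ∀ z ∈ R, X1' ∣ s z := by
    intro z hz
    have h1 : X1' ∣ s z * X1 := by rw [hrel' z hz]; exact Dvd.intro_left _ rfl
    exact (Nat.Coprime.dvd_of_dvd_mul_right hcop.symm h1)
  have htd : ∀ z ∈ R, X1 ∣ t z := by
    intro z hz
    have h1 : X1 ∣ t z * X1' := by rw [← hrel' z hz]; exact Dvd.intro_left _ rfl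
    exact (Nat.Coprime.dvd_of_dvd_mul_right hcop h1)
  have hsum : ∀ (f : γ → ℕ) (d : ℕ), 0 < d → (∀ z ∈ R, f z ∈ Finset.Icc 1 M) →
      Set.InjOn f R → (∀ z ∈ R, d ∣ f z) → ∑ z ∈ R, c (f z) ^ 2 ≤ S / d := by
    intro f d hd hf hfi hfd
    have hd' : (0 : ℝ) < d := by exact_mod_cast hd
    rw [le_div_iff₀ hd', mul_comm]
    refine le_trans ?_ (sum_multiples M c hc0 hc d hd)
    apply mul_le_mul_of_nonneg_left _ hd'.le
    rw [← Finset.sum_image (f := fun m => c m ^ 2) hfi]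
    apply Finset.sum_le_sum_of_subset_of_nonneg
    · intro w hw
      rw [Finset.mem_image] at hw
      obtain ⟨z, hz, rfl⟩ := hw
      rw [Finset.mem_filter]
      exact ⟨hf z hz, hfd z hz⟩
    · intro m _ _
      positivity
  have h1 := hsum s X1' hX1p' hs hsi hsd
  have h2 := hsum t X1 hX1p ht hti htd
  have hgR : (0 : ℝ) < g := by exact_mod_cast hg0
  have hX1R : (0 : ℝ) < X1 := by exact_mod_cast hX1p
  have hX1R' : (0 : ℝ) < X1' := by exact_mod_cast hX1p'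
  calc ∑ z ∈ R, c (s z) * c (t z)
      ≤ Real.sqrt (∑ z ∈ R, c (s z) ^ 2) * Real.sqrt (∑ z ∈ R, c (t z) ^ 2) :=
        Real.sum_mul_le_sqrt_mul_sqrt R (fun z => c (s z)) (fun z => c (t z))
    _ ≤ Real.sqrt (S / X1') * Real.sqrt (S / X1) := by
        apply mul_le_mul (Real.sqrt_le_sqrt h1) (Real.sqrt_le_sqrt h2) (Real.sqrt_nonneg _)
          (Real.sqrt_nonneg _)
    _ = (g : ℝ) / Real.sqrt ((X : ℝ) * (X' : ℝ)) * S := by
        rw [← Real.sqrt_mul (by positivity)]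
        have h3 : S / X1' * (S / X1) = (S / Real.sqrt ((X1 : ℝ) * X1')) ^ 2 := by
          rw [div_pow, Real.sq_sqrt (by positivity)]
          field_simp
        rw [h3, Real.sqrt_sq (by positivity)]
        have h4 : Real.sqrt ((X : ℝ) * (X' : ℝ)) = g * Real.sqrt ((X1 : ℝ) * X1') := by
          rw [hX1, hX1']
          push_cast
          rw [show (g : ℝ) * X1 * (g * X1') = (g : ℝ) ^ 2 * (X1 * X1') by ring,
            Real.sqrt_mul (by positivity), Real.sqrt_sq hgR.le]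
        rw [h4]
        have h5 : 0 < Real.sqrt ((X1 : ℝ) * X1') := Real.sqrt_pos.2 (by positivity)
        field_simp

/-- the diagonal terms are bounded by a GCD sum -/
theorem diag_sum {α : Type*} [DecidableEq α] (U : Finset α) (nu de : α → ℕ) (f : α → ℝ)
    (hf : ∀ a, 0 ≤ f a) (hpos : ∀ a ∈ U, 0 < nu a ∧ 0 < de a) (M : ℕ) (c : ℕ → ℝ)
    (hc0 : ∀ m, 0 ≤ c m) (hc : ∀ m n, 1 ≤ m → m ≤ n → c n ≤ c m) (E : ℝ)
    (hE : ∑ a ∈ U, ∑ b ∈ U, ∑ a' ∈ U, ∑ b' ∈ U, (f a * f b * f a' * f b') *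
      ((Nat.gcd (nu a * de b * (de a' * nu b')) (de a * nu b * (nu a' * de b')) : ℝ) /
        Real.sqrt (((nu a * de b * (de a' * nu b') : ℕ) : ℝ) *
          ((de a * nu b * (nu a' * de b') : ℕ) : ℝ))) ≤ E) :
    ∀ 𝒥 : Finset ((ℕ × α × α) × (ℕ × α × α)),
      (∀ z ∈ 𝒥, (z.1.1 ∈ Finset.Icc 1 M ∧ z.2.1 ∈ Finset.Icc 1 M) ∧
        (z.1.2.1 ∈ U ∧ z.1.2.2 ∈ U ∧ z.2.2.1 ∈ U ∧ z.2.2.2 ∈ U) ∧
        (z.1.1 * nu z.1.2.1 * de z.1.2.2) * (de z.2.2.1 * nu z.2.2.2) =
          (z.2.1 * nu z.2.2.1 * de z.2.2.2) * (de z.1.2.1 * nu z.1.2.2)) →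
      ∑ z ∈ 𝒥, (c z.1.1 * (f z.1.2.1 * f z.1.2.2)) * (c z.2.1 * (f z.2.2.1 * f z.2.2.2))
        ≤ E * ∑ m ∈ Finset.Icc 1 M, c m ^ 2 := by
  classical
  intro 𝒥 h𝒥
  set S : ℝ := ∑ m ∈ Finset.Icc 1 M, c m ^ 2 with hS
  have hS0 : 0 ≤ S := Finset.sum_nonneg fun m _ => by positivity
  set κ : ((ℕ × α × α) × (ℕ × α × α)) → α × α × α × α :=
    fun z => (z.1.2.1, z.1.2.2, z.2.2.1, z.2.2.2) with hκ
  have hmaps : ∀ z ∈ 𝒥, κ z ∈ U ×ˢ U ×ˢ U ×ˢ U := by
    intro z hz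
    obtain ⟨_, h2, _⟩ := h𝒥 z hz
    simp only [hκ, Finset.mem_product]
    exact h2
  rw [← Finset.sum_fiberwise_of_maps_to hmaps]
  have hfib : ∀ k ∈ U ×ˢ U ×ˢ U ×ˢ U,
      ∑ z ∈ 𝒥.filter (fun z => κ z = k),
        (c z.1.1 * (f z.1.2.1 * f z.1.2.2)) * (c z.2.1 * (f z.2.2.1 * f z.2.2.2)) ≤
      (f k.1 * f k.2.1 * f k.2.2.1 * f k.2.2.2) *
      ((Nat.gcd (nu k.1 * de k.2.1 * (de k.2.2.1 * nu k.2.2.2))
          (de k.1 * nu k.2.1 * (nu k.2.2.1 * de k.2.2.2)) : ℝ) /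
        Real.sqrt (((nu k.1 * de k.2.1 * (de k.2.2.1 * nu k.2.2.2) : ℕ) : ℝ) *
          ((de k.1 * nu k.2.1 * (nu k.2.2.1 * de k.2.2.2) : ℕ) : ℝ))) * S := by
    rintro ⟨a, b, a', b'⟩ hk
    simp only [Finset.mem_product] at hk
    obtain ⟨ha, hb, ha', hb'⟩ := hk
    have hmem : ∀ z ∈ 𝒥.filter (fun z => κ z = (a, b, a', b')), z ∈ 𝒥 ∧
        z.1.2.1 = a ∧ z.1.2.2 = b ∧ z.2.2.1 = a' ∧ z.2.2.2 = b' := by
      intro z hz
      rw [Finset.mem_filter] at hz
      obtain ⟨h1, h2⟩ := hz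
      simp only [hκ, Prod.mk.injEq] at h2
      exact ⟨h1, h2⟩
    have hXp : 0 < nu a * de b * (de a' * nu b') :=
      Nat.mul_pos (Nat.mul_pos (hpos a ha).1 (hpos b hb).2)
        (Nat.mul_pos (hpos a' ha').2 (hpos b' hb').1)
    have hXp' : 0 < de a * nu b * (nu a' * de b') :=
      Nat.mul_pos (Nat.mul_pos (hpos a ha).2 (hpos b hb).1)
        (Nat.mul_pos (hpos a' ha').1 (hpos b' hb').2)
    have hrel : ∀ z ∈ 𝒥.filter (fun z => κ z = (a, b, a', b')),
        z.1.1 * (nu a * de b * (de a' * nu b')) = z.2.1 * (de a * nu b * (nu a' * de b')) := by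
      intro z hz
      obtain ⟨h1, rfl, rfl, rfl, rfl⟩ := hmem z hz
      have h2 := (h𝒥 z h1).2.2
      calc z.1.1 * (nu z.1.2.1 * de z.1.2.2 * (de z.2.2.1 * nu z.2.2.2))
          = (z.1.1 * nu z.1.2.1 * de z.1.2.2) * (de z.2.2.1 * nu z.2.2.2) := by ring
        _ = (z.2.1 * nu z.2.2.1 * de z.2.2.2) * (de z.1.2.1 * nu z.1.2.2) := h2
        _ = z.2.1 * (de z.1.2.1 * nu z.1.2.2 * (nu z.2.2.1 * de z.2.2.2)) := by ring
    have heq : ∀ z ∈ 𝒥.filter (fun z => κ z = (a, b, a', b')),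
        ∀ z' ∈ 𝒥.filter (fun z => κ z = (a, b, a', b')), z.1.1 = z'.1.1 → z.2.1 = z'.2.1 →
          z = z' := by
      intro z hz z' hz' h1 h2
      obtain ⟨_, h3, h4, h5, h6⟩ := hmem z hz
      obtain ⟨_, h3', h4', h5', h6'⟩ := hmem z' hz'
      refine Prod.ext (Prod.ext h1 (Prod.ext ?_ ?_)) (Prod.ext h2 (Prod.ext ?_ ?_))
      · exact h3.trans h3'.symm
      · exact h4.trans h4'.symm
      · exact h5.trans h5'.symm
      · exact h6.trans h6'.symm
    have hpair := diag_pair (𝒥.filter (fun z => κ z = (a, b, a', b'))) (fun z => z.1.1)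
      (fun z => z.2.1) M c hc0 hc _ _ hXp hXp'
      (fun z hz => (h𝒥 z (hmem z hz).1).1.1) (fun z hz => (h𝒥 z (hmem z hz).1).1.2)
      (by
        intro z hz z' hz' h
        rw [Finset.mem_coe] at hz hz'
        simp only at h
        apply heq z hz z' hz' h
        have h1 := hrel z hz
        have h2 := hrel z' hz'
        rw [h, h2] at h1
        exact (Nat.eq_of_mul_eq_mul_right hXp' h1).symm)
      (by
        intro z hz z' hz' h
        rw [Finset.mem_coe] at hz hz'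
        simp only at h
        refine heq z hz z' hz' ?_ h
        have h1 := hrel z hz
        have h2 := hrel z' hz'
        rw [h, ← h2] at h1
        exact Nat.eq_of_mul_eq_mul_right hXp h1)
      hrel
    have hfnn : 0 ≤ f a * f b * f a' * f b' :=
      mul_nonneg (mul_nonneg (mul_nonneg (hf a) (hf b)) (hf a')) (hf b')
    calc ∑ z ∈ 𝒥.filter (fun z => κ z = (a, b, a', b')),
          (c z.1.1 * (f z.1.2.1 * f z.1.2.2)) * (c z.2.1 * (f z.2.2.1 * f z.2.2.2))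
        = (f a * f b * f a' * f b') *
            ∑ z ∈ 𝒥.filter (fun z => κ z = (a, b, a', b')), c z.1.1 * c z.2.1 := by
          rw [Finset.mul_sum]
          apply Finset.sum_congr rfl
          intro z hz
          obtain ⟨_, h3, h4, h5, h6⟩ := hmem z hz
          rw [h3, h4, h5, h6]
          ring
      _ ≤ (f a * f b * f a' * f b') * (((Nat.gcd (nu a * de b * (de a' * nu b'))
            (de a * nu b * (nu a' * de b')) : ℕ) : ℝ) / Real.sqrt
            (((nu a * de b * (de a' * nu b') : ℕ) : ℝ) *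
            ((de a * nu b * (nu a' * de b') : ℕ) : ℝ)) * S) :=
          mul_le_mul_of_nonneg_left hpair hfnn
      _ = _ := by simp only; ring
  refine (Finset.sum_le_sum hfib).trans ?_
  rw [← Finset.sum_mul]
  apply mul_le_mul_of_nonneg_right _ hS0
  refine le_trans (le_of_eq ?_) hE
  rw [Finset.sum_product]
  apply Finset.sum_congr rfl
  intro a _
  rw [Finset.sum_product]
  apply Finset.sum_congr rfl
  intro b _
  rw [Finset.sum_product]

end Pool.Agent.H.MP_3e6494_nt.h26t
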