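import Mathlib
import Pool.Agent.H.MP_3e6494_nt.helper14.Long
import Pool.Agent.H.MP_3e6494_nt.helper50.PV

/-!
The Fourier expansion of the centred counting function of an interval.
-/

open Finset

set_option linter.unusedSectionVars false
set_option linter.unusedVariables false

namespace Pool.Agent.H.MP_3e6494_nt.h26t

open Pool.Agent.H.MP_3e6494_nt.A14 (hI)

variable {q : ℕ} [hq : Fact q.Prime]

/-- the Fourier coefficients of an interval -/
noncomputable def cF (q a ℓ : ℕ) [Fact q.Prime] (m : ZMod q) : ℂ :=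
  (q : ℂ)⁻¹ * ∑ n ∈ Finset.Ioc a (a + ℓ), ZMod.stdAddChar (-m * (n : ZMod q))

lemma norm_std (x : ZMod q) : ‖(ZMod.stdAddChar x : ℂ)‖ = 1 := AddChar.norm_apply _ _

lemma cF_zero (a ℓ : ℕ) : cF q a ℓ 0 = (ℓ : ℂ) / q := by
  unfold cF
  simp only [neg_zero, zero_mul, AddChar.map_zero_eq_one, Finset.sum_const, Nat.card_Ioc,
    nsmul_eq_mul, mul_one]
  have : a + ℓ - a = ℓ := by omega
  rw [this, div_eq_inv_mul]

lemma cF_triv (a ℓ : ℕ) (m : ZMod q) : ‖cF q a ℓ m‖ ≤ (ℓ : ℝ) / q := by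
  unfold cF
  rw [norm_mul, norm_inv, Complex.norm_natCast, div_eq_inv_mul]
  refine mul_le_mul_of_nonneg_left ?_ (by positivity)
  refine (norm_sum_le _ _).trans ?_
  simp only [norm_std, Finset.sum_const, Nat.card_Ioc, nsmul_eq_mul, mul_one]
  have : a + ℓ - a = ℓ := by omega
  rw [this]

lemma cF_geom (a ℓ : ℕ) (m : ZMod q) (hm : m ≠ 0) :
    ‖cF q a ℓ m‖ ≤ 1 / (min m.val (q - m.val) : ℕ) := by
  have hq0 : (0 : ℝ) < q := by exact_mod_cast hq.out.pos
  have hv0 : 0 < m.val := by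
    rcases Nat.eq_zero_or_pos m.val with h | h
    · exact absurd ((ZMod.val_eq_zero m).1 h) hm
    · exact h
  have hvq : m.val < q := ZMod.val_lt m
  have hneg : (-m).val = q - m.val := by
    rw [ZMod.neg_val]
    simp [hm]
  have hshift : ∑ n ∈ Finset.Ioc a (a + ℓ), (ZMod.stdAddChar (-m * (n : ZMod q)) : ℂ) =
      ZMod.stdAddChar (-m * ((a + 1 : ℕ) : ZMod q)) *
        ∑ n ∈ Finset.range ℓ, (ZMod.stdAddChar (-m * (n : ZMod q)) : ℂ) := by
    rw [Finset.mul_sum]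
    refine Finset.sum_nbij' (fun n => n - (a + 1)) (fun n => n + (a + 1)) ?_ ?_ ?_ ?_ ?_
    · intro n hn; rw [Finset.mem_Ioc] at hn; rw [Finset.mem_range]; omega
    · intro n hn; rw [Finset.mem_range] at hn; rw [Finset.mem_Ioc]; omega
    · intro n hn; rw [Finset.mem_Ioc] at hn; omega
    · intro n hn; omega
    · intro n hn
      rw [Finset.mem_Ioc] at hn
      rw [← AddChar.map_add_eq_mul]
      congr 1
      have : n = (a + 1) + (n - (a + 1)) := by omega
      conv_lhs => rw [this]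
      push_cast
      ring
  unfold cF
  rw [hshift, norm_mul, norm_inv, Complex.norm_natCast, norm_mul, norm_std, one_mul]
  have h1 := PV.geom_bound (-m) (neg_ne_zero.2 hm) ℓ
  rw [hneg] at h1
  have h2 : (q - (q - m.val) : ℕ) = m.val := by omega
  rw [h2] at h1
  set M := min m.val (q - m.val) with hM
  have hM0 : 0 < M := by
    rw [hM]; exact lt_min hv0 (by omega)
  have hM0' : (0 : ℝ) < M := by exact_mod_cast hM0
  have h3 : 1 / ((q - m.val : ℕ) : ℝ) ≤ 1 / (M : ℝ) := by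
    apply one_div_le_one_div_of_le hM0'
    exact_mod_cast min_le_right _ _
  have h4 : 1 / ((m.val : ℕ) : ℝ) ≤ 1 / (M : ℝ) := by
    apply one_div_le_one_div_of_le hM0'
    exact_mod_cast min_le_left _ _
  rw [inv_mul_le_iff₀ hq0]
  refine h1.trans ?_
  have h5 : (q : ℝ) / 2 * (1 / ((q - m.val : ℕ) : ℝ) + 1 / ((m.val : ℕ) : ℝ)) ≤
      (q : ℝ) / 2 * (1 / (M : ℝ) + 1 / (M : ℝ)) := by
    apply mul_le_mul_of_nonneg_left (by linarith) (by positivity)
  refine h5.trans (le_of_eq ?_)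
  ring

/-- orthogonality -/
lemma orth (y : ZMod q) :
    ∑ m : ZMod q, (ZMod.stdAddChar (m * y) : ℂ) = if y = 0 then (q : ℂ) else 0 := by
  rw [AddChar.sum_mulShift y (ZMod.isPrimitive_stdAddChar q), ZMod.card]
  split_ifs <;> simp

theorem cF_expand (a ℓ : ℕ) (x : (ZMod q)ˣ) :
    ((hI q a ℓ x : ℝ) : ℂ) =
      ∑ m ∈ (Finset.univ.erase 0 : Finset (ZMod q)), cF q a ℓ m * ZMod.stdAddChar (m * (x : ZMod q)) := by
  have hq0 : (q : ℂ) ≠ 0 := by exact_mod_cast hq.out.ne_zero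
  have h0 : ∑ m : ZMod q, cF q a ℓ m * ZMod.stdAddChar (m * (x : ZMod q)) =
      (((Finset.Ioc a (a + ℓ)).filter (fun n : ℕ => (n : ZMod q) = (x : ZMod q))).card : ℂ) := by
    unfold cF
    have h1 : ∀ m : ZMod q, (q : ℂ)⁻¹ * (∑ n ∈ Finset.Ioc a (a + ℓ),
        (ZMod.stdAddChar (-m * (n : ZMod q)) : ℂ)) * ZMod.stdAddChar (m * (x : ZMod q)) =
        (q : ℂ)⁻¹ * ∑ n ∈ Finset.Ioc a (a + ℓ),
          (ZMod.stdAddChar (m * ((x : ZMod q) - (n : ZMod q))) : ℂ) := by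
      intro m
      rw [mul_assoc, Finset.sum_mul]
      congr 1
      apply Finset.sum_congr rfl
      intro n _
      rw [← AddChar.map_add_eq_mul]
      congr 1
      ring
    simp_rw [h1]
    rw [← Finset.mul_sum, Finset.sum_comm]
    simp_rw [orth]
    rw [← Finset.sum_filter, Finset.sum_const, nsmul_eq_mul]
    have h2 : (Finset.Ioc a (a + ℓ)).filter (fun n : ℕ => (x : ZMod q) - (n : ZMod q) = 0) =
        (Finset.Ioc a (a + ℓ)).filter (fun n : ℕ => (n : ZMod q) = (x : ZMod q)) := by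
      apply Finset.filter_congr
      intro n _
      rw [sub_eq_zero]
      exact eq_comm
    rw [h2]
    field_simp
  have h3 := Finset.add_sum_erase (Finset.univ : Finset (ZMod q))
    (fun m => cF q a ℓ m * (ZMod.stdAddChar (m * (x : ZMod q)) : ℂ)) (Finset.mem_univ 0)
  rw [h0] at h3
  simp only [zero_mul, AddChar.map_zero_eq_one, mul_one] at h3
  rw [cF_zero] at h3
  unfold hI
  push_cast
  rw [← h3]
  ring

/-- **the Fourier expansion of an interval** -/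
theorem hI_fourier (q : ℕ) [Fact q.Prime] (a ℓ : ℕ) (hℓ : ℓ < q) :
    ∃ c : ZMod q → ℂ, (∀ m : ZMod q, m ≠ 0 → ‖c m‖ ≤ (ℓ : ℝ) / q ∧
        ‖c m‖ ≤ 1 / ((min m.val (q - m.val) : ℕ) : ℝ)) ∧
      ∀ x : (ZMod q)ˣ, ((hI q a ℓ x : ℝ) : ℂ) =
        ∑ m ∈ (Finset.univ.erase 0 : Finset (ZMod q)), c m * ZMod.stdAddChar (m * (x : ZMod q)) :=
  ⟨cF q a ℓ, fun m hm => ⟨cF_triv a ℓ m, cF_geom a ℓ m hm⟩, fun x => cF_expand a ℓ x⟩

end Pool.Agent.H.MP_3e6494_nt.h26t
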