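import Mathlib
import Pool.Agent.H.MP_3e6494_nt.helper50.T3Prime

/-!
Multiplicatively independent elements of a small subgroup modulo `q`: pigeonhole and the number of
primes `q`.
-/

open Finset

set_option linter.unusedSectionVars false
set_option linter.unusedVariables false

namespace Pool.Agent.H.MP_3e6494_nt.h26t

open Pool.Agent.H.MP_3e6494_nt.T3Prime Pool.Agent.H.MP_3e6494_nt.T3Exc

/-- pigeonhole on power products -/
theorem pig {K : Type*} [CommGroup K] [Finite K] {r E : ℕ} (h : Nat.card K < (E + 1) ^ r)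
    (x : Fin r → K) : ∃ e : Fin r → ℤ, e ≠ 0 ∧ (∀ i, |e i| ≤ (E : ℤ)) ∧ ∏ i, x i ^ e i = 1 := by
  classical
  have := Fintype.ofFinite K
  have hcard : Fintype.card K < Fintype.card (Fin r → Fin (E + 1)) := by
    rw [Fintype.card_fun, Fintype.card_fin, Fintype.card_fin, ← Nat.card_eq_fintype_card]
    exact h
  obtain ⟨a, b, hab, hf⟩ := Fintype.exists_ne_map_eq_of_card_lt
    (fun a : Fin r → Fin (E + 1) => ∏ i, x i ^ ((a i : ℕ) : ℤ)) hcard
  refine ⟨fun i => ((a i : ℕ) : ℤ) - ((b i : ℕ) : ℤ), ?_, ?_, ?_⟩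
  · intro h0
    apply hab
    funext i
    have h1 := congrFun h0 i
    simp only [Pi.zero_apply] at h1
    apply Fin.ext
    omega
  · intro i
    have h1 := (a i).2
    have h2 := (b i).2
    show |((a i : ℕ) : ℤ) - ((b i : ℕ) : ℤ)| ≤ (E : ℤ)
    rw [abs_le]
    constructor <;> omega
  · have h3 : ∀ i, x i ^ (((a i : ℕ) : ℤ) - ((b i : ℕ) : ℤ))
        = x i ^ ((a i : ℕ) : ℤ) * (x i ^ ((b i : ℕ) : ℤ))⁻¹ := fun i => zpow_sub _ _ _
    rw [Finset.prod_congr rfl (fun i _ => h3 i)]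
    rw [Finset.prod_mul_distrib, Finset.prod_inv_distrib]
    rw [hf, mul_inv_cancel]

/-- the exponent vector of `x / y` -/
noncomputable def vec (x y : ℕ) : ℕ → ℚ :=
  fun p => (x.factorization p : ℚ) - (y.factorization p : ℚ)

lemma vec_eq_zero {x y : ℕ} (hx : x ≠ 0) (hy : y ≠ 0) (h : vec x y = 0) : x = y := by
  apply Nat.eq_of_factorization_eq hx hy
  intro p
  have h1 := congrFun h p
  unfold vec at h1
  simp only [Pi.zero_apply] at h1
  have h2 : (x.factorization p : ℚ) = (y.factorization p : ℚ) := by linarith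
  exact_mod_cast h2

/-- the numerator of a power product -/
def nume {r : ℕ} (x y : Fin r → ℕ) (e : Fin r → ℤ) : ℕ :=
  ∏ i, (x i ^ (e i).toNat * y i ^ (-(e i)).toNat)

lemma nume_pos {r : ℕ} {x y : Fin r → ℕ} (hx : ∀ i, x i ≠ 0) (hy : ∀ i, y i ≠ 0)
    (e : Fin r → ℤ) : nume x y e ≠ 0 := by
  unfold nume
  apply Finset.prod_ne_zero_iff.2
  intro i _
  exact mul_ne_zero (pow_ne_zero _ (hx i)) (pow_ne_zero _ (hy i))

lemma toNat_add_toNat_neg_le {e : ℤ} {E : ℕ} (h : |e| ≤ (E : ℤ)) :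
    e.toNat + (-e).toNat ≤ E := by
  rw [abs_le] at h
  omega

lemma nume_le {r : ℕ} {x y : Fin r → ℕ} {B E : ℕ} (hx : ∀ i, x i ≤ 2 ^ B) (hy : ∀ i, y i ≤ 2 ^ B)
    (e : Fin r → ℤ) (he : ∀ i, |e i| ≤ (E : ℤ)) : nume x y e ≤ 2 ^ (r * B * E) := by
  unfold nume
  calc ∏ i, (x i ^ (e i).toNat * y i ^ (-(e i)).toNat)
      ≤ ∏ _i : Fin r, 2 ^ (B * E) := by
        apply Finset.prod_le_prod'
        intro i _
        calc x i ^ (e i).toNat * y i ^ (-(e i)).toNat
            ≤ (2 ^ B) ^ (e i).toNat * (2 ^ B) ^ (-(e i)).toNat :=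
              Nat.mul_le_mul (Nat.pow_le_pow_left (hx i) _) (Nat.pow_le_pow_left (hy i) _)
          _ = (2 ^ B) ^ ((e i).toNat + (-(e i)).toNat) := (pow_add _ _ _).symm
          _ ≤ (2 ^ B) ^ E := Nat.pow_le_pow_right (by positivity) (toNat_add_toNat_neg_le (he i))
          _ = 2 ^ (B * E) := (pow_mul _ _ _).symm
    _ = 2 ^ (r * B * E) := by
        rw [Finset.prod_const, Finset.card_univ, Fintype.card_fin, ← pow_mul]
        congr 1; ring

lemma factorization_nume {r : ℕ} {x y : Fin r → ℕ} (hx : ∀ i, x i ≠ 0) (hy : ∀ i, y i ≠ 0)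
    (e : Fin r → ℤ) (p : ℕ) : ((nume x y e).factorization p : ℚ)
      = ∑ i, (((e i).toNat : ℚ) * ((x i).factorization p : ℚ)
        + ((-(e i)).toNat : ℚ) * ((y i).factorization p : ℚ)) := by
  unfold nume
  rw [Nat.factorization_prod (fun i _ => mul_ne_zero (pow_ne_zero _ (hx i)) (pow_ne_zero _ (hy i)))]
  rw [Finsupp.coe_finsetSum, Finset.sum_apply]
  push_cast
  apply Finset.sum_congr rfl
  intro i _
  rw [Nat.factorization_mul (pow_ne_zero _ (hx i)) (pow_ne_zero _ (hy i)), Nat.factorization_pow,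
    Nat.factorization_pow]
  simp only [Finsupp.add_apply, Finsupp.smul_apply, smul_eq_mul]
  push_cast
  ring

lemma nume_ne {r : ℕ} {x y : Fin r → ℕ} (hx : ∀ i, x i ≠ 0) (hy : ∀ i, y i ≠ 0)
    (hind : LinearIndependent ℚ (fun i => vec (x i) (y i))) (e : Fin r → ℤ) (he : e ≠ 0) :
    nume x y e ≠ nume y x e := by
  intro h
  apply he
  rw [Fintype.linearIndependent_iff] at hind
  have h1 := hind (fun i => (e i : ℚ)) (by
    funext p
    rw [Finset.sum_apply]
    simp only [Pi.smul_apply, smul_eq_mul, Pi.zero_apply]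
    have h2 := factorization_nume hx hy e p
    have h3 := factorization_nume hy hx e p
    rw [h, h3] at h2
    have h4 : ∑ i, (((e i).toNat : ℚ) * ((x i).factorization p : ℚ)
        + ((-(e i)).toNat : ℚ) * ((y i).factorization p : ℚ)) -
        ∑ i, (((e i).toNat : ℚ) * ((y i).factorization p : ℚ)
        + ((-(e i)).toNat : ℚ) * ((x i).factorization p : ℚ)) = 0 := by
      rw [h2]; ring
    rw [← Finset.sum_sub_distrib] at h4
    rw [← h4]
    apply Finset.sum_congr rfl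
    intro i _
    have h5 : (e i : ℚ) = ((e i).toNat : ℚ) - ((-(e i)).toNat : ℚ) := by
      have h6 : (e i) = ((e i).toNat : ℤ) - ((-(e i)).toNat : ℤ) := (Int.toNat_sub_toNat_neg _).symm
      calc (e i : ℚ) = (((((e i).toNat : ℤ) - ((-(e i)).toNat : ℤ) : ℤ)) : ℚ) := by rw [← h6]
        _ = _ := by push_cast; ring
    rw [h5]
    unfold vec
    ring)
  funext i
  have := h1 i
  simp only [Pi.zero_apply]
  exact_mod_cast this

/-- the primes attached to a tuple -/
noncomputable def primesOf {r : ℕ} (x y : Fin r → ℕ) (E : ℕ) : Finset ℕ :=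
  (Fintype.piFinset (fun _ : Fin r => Finset.Icc (-(E : ℤ)) E)).biUnion
    (fun e => ((nume x y e - nume y x e) + (nume y x e - nume x y e)).primeFactors)

lemma card_primesOf_le {r : ℕ} {x y : Fin r → ℕ} {B E : ℕ}
    (hx : ∀ i, x i ≤ 2 ^ B) (hy : ∀ i, y i ≤ 2 ^ B) :
    (primesOf x y E).card ≤ (2 * E + 1) ^ r * (r * B * E) := by
  unfold primesOf
  have h1 : (Fintype.piFinset (fun _ : Fin r => Finset.Icc (-(E : ℤ)) E)).card = (2 * E + 1) ^ r := by
    rw [Fintype.card_piFinset, Finset.prod_const, Finset.card_univ, Fintype.card_fin, Int.card_Icc]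
    congr 1
    omega
  rw [← h1]
  apply Finset.card_biUnion_le_card_mul
  intro e he
  rw [Fintype.mem_piFinset] at he
  have he' : ∀ i, |e i| ≤ (E : ℤ) := by
    intro i
    have := he i
    rw [Finset.mem_Icc] at this
    rw [abs_le]; exact this
  have h2 := nume_le hx hy e he'
  have h3 := nume_le hy hx e he'
  by_cases h0 : (nume x y e - nume y x e) + (nume y x e - nume x y e) = 0
  · rw [h0]; simp
  · apply card_primeFactors_le h0
    omega

lemma zpow_aux {G : Type*} [CommGroup G] (a b : G) (m n : ℕ) :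
    (a * b⁻¹) ^ ((m : ℤ) - (n : ℤ)) = (a ^ m * b ^ n) * (b ^ m * a ^ n)⁻¹ := by
  rw [zpow_sub, zpow_natCast, zpow_natCast, mul_pow, mul_pow, inv_pow, inv_pow, mul_inv, mul_inv,
    inv_inv]
  generalize a ^ m = A
  generalize (b ^ m)⁻¹ = B
  generalize (a ^ n)⁻¹ = C
  generalize b ^ n = D
  rw [mul_comm C D, mul_mul_mul_comm]

variable {q : ℕ} [hq : Fact q.Prime]

lemma units_prod {r : ℕ} {x y : Fin r → ℕ} (hx : ∀ i, (x i).Coprime q) (hy : ∀ i, (y i).Coprime q)
    (e : Fin r → ℤ) (h : ∏ i, (u q (x i) * (u q (y i))⁻¹) ^ e i = 1) :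
    ((nume x y e : ℕ) : ZMod q) = ((nume y x e : ℕ) : ZMod q) := by
  have h1 : ∀ i, (u q (x i) * (u q (y i))⁻¹) ^ e i
      = (u q (x i) ^ (e i).toNat * u q (y i) ^ (-(e i)).toNat) *
        (u q (y i) ^ (e i).toNat * u q (x i) ^ (-(e i)).toNat)⁻¹ := by
    intro i
    have h2 : (e i) = ((e i).toNat : ℤ) - ((-(e i)).toNat : ℤ) := (Int.toNat_sub_toNat_neg _).symm
    conv_lhs => rw [h2]
    exact zpow_aux _ _ _ _
  simp_rw [h1] at h
  rw [Finset.prod_mul_distrib, Finset.prod_inv_distrib, mul_inv_eq_one] at h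
  have h3 := congrArg (fun z : (ZMod q)ˣ => (z : ZMod q)) h
  simp only [Units.coe_prod, Units.val_mul, Units.val_pow_eq_pow_val] at h3
  unfold nume
  push_cast
  simp_rw [u_val (hx _), u_val (hy _)] at h3
  exact h3

theorem mem_primesOf {r E : ℕ} {x y : Fin r → ℕ} (hx0 : ∀ i, x i ≠ 0) (hy0 : ∀ i, y i ≠ 0)
    (hx : ∀ i, (x i).Coprime q) (hy : ∀ i, (y i).Coprime q)
    (K : Subgroup (ZMod q)ˣ) (hK : Nat.card K < (E + 1) ^ r)
    (hmem : ∀ i, u q (x i) * (u q (y i))⁻¹ ∈ K)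
    (hind : LinearIndependent ℚ (fun i => vec (x i) (y i))) : q ∈ primesOf x y E := by
  obtain ⟨e, he, heE, hprod⟩ := pig hK (fun i => (⟨_, hmem i⟩ : K))
  have hprod' : ∏ i, (u q (x i) * (u q (y i))⁻¹) ^ e i = 1 := by
    have := congrArg (fun z : K => (z : (ZMod q)ˣ)) hprod
    simpa using this
  have h1 := units_prod hx hy e hprod'
  have h2 := nume_ne hx0 hy0 hind e he
  unfold primesOf
  rw [Finset.mem_biUnion]
  refine ⟨e, ?_, ?_⟩
  · rw [Fintype.mem_piFinset]
    intro i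
    rw [Finset.mem_Icc]
    exact abs_le.1 (heE i)
  · rw [Nat.mem_primeFactors]
    rw [ZMod.natCast_eq_natCast_iff] at h1
    refine ⟨hq.out, ?_, by omega⟩
    rcases le_total (nume x y e) (nume y x e) with h | h
    · rw [Nat.sub_eq_zero_of_le h, zero_add]
      exact (Nat.modEq_iff_dvd' h).1 h1
    · rw [Nat.sub_eq_zero_of_le h, add_zero]
      exact (Nat.modEq_iff_dvd' h).1 h1.symm

end Pool.Agent.H.MP_3e6494_nt.h26t
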