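import Mathlib
import Pool.Agent.H.MP_3e6494_nt.h26t.Pig

/-!
Pivot primes: finite dimensional spaces of exponent vectors, and tuples which are not independent.
-/

open Finset

set_option linter.unusedSectionVars false
set_option linter.unusedVariables false

namespace Pool.Agent.H.MP_3e6494_nt.h26t

open Pool.Agent.H.MP_3e6494_nt.T3Prime Pool.Agent.H.MP_3e6494_nt.T3Exc

/-- a finite dimensional space of functions is determined by `dim` values -/
theorem exists_pivots : ∀ (s : ℕ) (W : Submodule ℚ (ℕ → ℚ)) [FiniteDimensional ℚ W],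
    Module.finrank ℚ W ≤ s → ∃ P : Finset ℕ, P.card ≤ s ∧ (∀ p ∈ P, ∃ w ∈ W, w p ≠ 0) ∧
      ∀ w ∈ W, (∀ p ∈ P, w p = 0) → w = 0 := by
  classical
  intro s
  induction s with
  | zero =>
    intro W _ hW
    refine ⟨∅, by simp, by simp, ?_⟩
    intro w hw _
    have h1 : W = ⊥ := Submodule.finrank_eq_zero.1 (Nat.le_zero.1 hW)
    rw [h1, Submodule.mem_bot] at hw
    exact hw
  | succ s ih =>
    intro W _ hW
    by_cases h0 : ∃ w ∈ W, w ≠ 0
    · obtain ⟨w, hw, hne⟩ := h0
      obtain ⟨p, hp⟩ := Function.ne_iff.1 hne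
      set W' : Submodule ℚ (ℕ → ℚ) := W ⊓ LinearMap.ker (LinearMap.proj p : (ℕ → ℚ) →ₗ[ℚ] ℚ)
        with hW'
      have hlt : W' < W := by
        refine lt_of_le_of_ne inf_le_left ?_
        intro h
        have h1 : w ∈ W' := by rw [h]; exact hw
        rw [hW', Submodule.mem_inf, LinearMap.mem_ker, LinearMap.proj_apply] at h1
        exact hp h1.2
      have : FiniteDimensional ℚ W' := Submodule.finiteDimensional_of_le hlt.le
      have h2 := Submodule.finrank_lt_finrank_of_lt hlt
      obtain ⟨P, hP1, hP3, hP2⟩ := ih W' (by omega)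
      refine ⟨insert p P, (Finset.card_insert_le _ _).trans (by omega), ?_, ?_⟩
      · intro p' hp'
        rw [Finset.mem_insert] at hp'
        rcases hp' with rfl | hp'
        · exact ⟨w, hw, hp⟩
        · obtain ⟨w', hw', hw'p⟩ := hP3 p' hp'
          exact ⟨w', hlt.le hw', hw'p⟩
      intro v hv hz
      apply hP2 v
      · rw [hW', Submodule.mem_inf, LinearMap.mem_ker, LinearMap.proj_apply]
        exact ⟨hv, hz p (Finset.mem_insert_self _ _)⟩
      · intro p' hp'
        exact hz p' (Finset.mem_insert_of_mem hp')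
    · push Not at h0
      exact ⟨∅, by simp, by simp, fun w hw _ => h0 w hw⟩

/-- if there is no independent `r`-tuple in a finite family, its span has dimension `< r` -/
theorem finrank_lt_of_no_tuple {ι : Type*} (S : Finset ι) (v : ι → ℕ → ℚ) (r : ℕ) (hr : 1 ≤ r)
    (h : ∀ t : Fin r → ι, (∀ i, t i ∈ S) → ¬ LinearIndependent ℚ (fun i => v (t i))) :
    FiniteDimensional ℚ (Submodule.span ℚ (v '' (S : Set ι))) ∧
      Module.finrank ℚ (Submodule.span ℚ (v '' (S : Set ι))) < r := by
  classical
  have hfin : (v '' (S : Set ι)).Finite := (Finset.finite_toSet S).image v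
  have hfd : FiniteDimensional ℚ (Submodule.span ℚ (v '' (S : Set ι))) :=
    FiniteDimensional.span_of_finite ℚ hfin
  refine ⟨hfd, ?_⟩
  by_contra hcon
  push Not at hcon
  obtain ⟨b, hbs, hbspan, hbind⟩ := exists_linearIndependent ℚ (v '' (S : Set ι))
  have hbfin : b.Finite := hfin.subset hbs
  have := hbfin.fintype
  have hcard : Fintype.card b = Module.finrank ℚ (Submodule.span ℚ (v '' (S : Set ι))) := by
    rw [← hbspan]
    have := finrank_span_set_eq_card hbind
    rw [this, Set.toFinset_card]
  have hrb : r ≤ Fintype.card b := by rw [hcard]; exact hcon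
  have hemb : Nonempty (Fin r ↪ b) := by
    apply Function.Embedding.nonempty_of_card_le
    rw [Fintype.card_fin]; exact hrb
  obtain ⟨g⟩ := hemb
  have hch : ∀ i : Fin r, ∃ a ∈ S, v a = (g i : ℕ → ℚ) := by
    intro i
    have := hbs (g i).2
    rw [Set.mem_image] at this
    obtain ⟨a, ha, hav⟩ := this
    exact ⟨a, Finset.mem_coe.1 ha, hav⟩
  choose t ht1 ht2 using hch
  apply h t ht1
  have h1 : (fun i => v (t i)) = (fun x : b => (x : ℕ → ℚ)) ∘ g := by
    funext i; rw [ht2 i]; rfl
  rw [h1]
  exact hbind.comp g g.injective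

/-- the pivot primes of a family without independent `r`-tuples -/
theorem pivots_of_no_tuple {ι : Type*} (S : Finset ι) (v : ι → ℕ → ℚ) (r : ℕ) (hr : 1 ≤ r)
    (h : ∀ t : Fin r → ι, (∀ i, t i ∈ S) → ¬ LinearIndependent ℚ (fun i => v (t i))) :
    ∃ P : Finset ℕ, P.card < r ∧ (∀ p ∈ P, ∃ a ∈ S, v a p ≠ 0) ∧
      ∀ a ∈ S, (∀ p ∈ P, v a p = 0) → v a = 0 := by
  obtain ⟨hfd, hlt⟩ := finrank_lt_of_no_tuple S v r hr h
  obtain ⟨P, hP1, hP3, hP2⟩ := exists_pivots (r - 1) (Submodule.span ℚ (v '' (S : Set ι)))
    (by omega)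
  refine ⟨P, by omega, ?_, ?_⟩
  · intro p hp
    obtain ⟨w, hw, hwp⟩ := hP3 p hp
    by_contra hcon
    push Not at hcon
    apply hwp
    have hle : Submodule.span ℚ (v '' (S : Set ι)) ≤
        LinearMap.ker (LinearMap.proj p : (ℕ → ℚ) →ₗ[ℚ] ℚ) := by
      rw [Submodule.span_le]
      rintro _ ⟨a, ha, rfl⟩
      rw [SetLike.mem_coe, LinearMap.mem_ker, LinearMap.proj_apply]
      exact hcon a (Finset.mem_coe.1 ha)
    have := hle hw
    rw [LinearMap.mem_ker, LinearMap.proj_apply] at this
    exact this
  intro a ha hz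
  exact hP2 _ (Submodule.subset_span (Set.mem_image_of_mem v (Finset.mem_coe.2 ha))) hz

/-- numbers up to `2 ^ B` whose exponent vectors lie in a translate of a small space -/
theorem card_in_space (A : Finset ℕ) (B s n₀ : ℕ) (hA : ∀ n ∈ A, n ≠ 0 ∧ n ≤ 2 ^ B)
    (W : Submodule ℚ (ℕ → ℚ)) [FiniteDimensional ℚ W] (hW : Module.finrank ℚ W ≤ s)
    (hmem : ∀ n ∈ A, vec n n₀ ∈ W) : A.card ≤ (B + 1) ^ s := by
  classical
  obtain ⟨P, hP1, -, hP2⟩ := exists_pivots s W hW
  have h1 : A.card ≤ (Fintype.piFinset (fun _ : P => Finset.range (B + 1))).card := by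
    apply Finset.card_le_card_of_injOn (fun n => fun p : P => n.factorization p)
    · intro n hn
      rw [Finset.mem_coe] at hn
      rw [Finset.mem_coe, Fintype.mem_piFinset]
      intro p
      rw [Finset.mem_range]
      obtain ⟨hn0, hn2⟩ := hA n hn
      have h2 := Nat.factorization_le_of_le_pow (p := (p : ℕ)) (n := n) (b := B)
      by_cases hp : (p : ℕ).Prime
      · have h3 : n ≤ (p : ℕ) ^ B := hn2.trans (Nat.pow_le_pow_left hp.two_le B)
        exact Nat.lt_succ_of_le (h2 h3)
      · show n.factorization (p : ℕ) < B + 1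
        rw [Nat.factorization_eq_zero_of_not_prime n hp]; omega
    · intro m hm n hn hmn
      rw [Finset.mem_coe] at hm hn
      have h2 : vec m n ∈ W := by
        have h3 : vec m n = vec m n₀ - vec n n₀ := by
          funext p
          simp only [vec, Pi.sub_apply]
          ring
        rw [h3]
        exact W.sub_mem (hmem m hm) (hmem n hn)
      have h4 : vec m n = 0 := by
        apply hP2 _ h2
        intro p hp
        have h5 := congrFun hmn ⟨p, hp⟩
        simp only at h5
        unfold vec
        rw [h5, sub_self]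
      exact vec_eq_zero (hA m hm).1 (hA n hn).1 h4
  refine h1.trans ?_
  rw [Fintype.card_piFinset, Finset.prod_const, Finset.card_range, Finset.card_univ,
    Fintype.card_coe]
  exact Nat.pow_le_pow_right (by omega) hP1

open scoped Classical in
/-- the independent `k`-tuples above `n₀` -/
noncomputable def tup (A : Finset ℕ) (n₀ k : ℕ) : Finset (Fin k → ℕ) :=
  (Fintype.piFinset (fun _ : Fin k => A)).filter
    (fun t => LinearIndependent ℚ (fun i => vec (t i) n₀))

/-- there are many independent tuples in a large set -/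
theorem card_tup_ge (A : Finset ℕ) (B s n₀ : ℕ) (hA : ∀ n ∈ A, n ≠ 0 ∧ n ≤ 2 ^ B) :
    ∀ k : ℕ, k ≤ s + 1 → (A.card - (B + 1) ^ s) ^ k ≤ (tup A n₀ k).card := by
  classical
  intro k
  induction k with
  | zero =>
    intro _
    rw [pow_zero]
    apply Nat.succ_le_of_lt
    rw [Finset.card_pos]
    refine ⟨Fin.elim0, ?_⟩
    unfold tup
    rw [Finset.mem_filter, Fintype.mem_piFinset]
    exact ⟨fun i => i.elim0, linearIndependent_empty_type⟩
  | succ k ih =>
    intro hk
    have ih' := ih (by omega)
    -- the good extensions of one tuple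
    have hgood : ∀ t ∈ tup A n₀ k, A.card - (B + 1) ^ s ≤
        (A.filter (fun n => vec n n₀ ∉ Submodule.span ℚ (Set.range fun i => vec (t i) n₀))).card := by
      intro t ht
      have : FiniteDimensional ℚ (Submodule.span ℚ (Set.range fun i => vec (t i) n₀)) :=
        FiniteDimensional.span_of_finite ℚ (Set.finite_range _)
      have h1 : (A.filter (fun n => vec n n₀ ∈
          Submodule.span ℚ (Set.range fun i => vec (t i) n₀))).card ≤ (B + 1) ^ s := by
        apply card_in_space (A.filter _) B s n₀ (fun n hn => hA n (Finset.mem_filter.1 hn).1)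
          (Submodule.span ℚ (Set.range fun i => vec (t i) n₀))
        · have h2 := finrank_range_le_card (R := ℚ) (fun i => vec (t i) n₀)
          rw [Fintype.card_fin] at h2
          unfold Set.finrank at h2
          omega
        · intro n hn
          exact (Finset.mem_filter.1 hn).2
      have h3 := Finset.card_filter_add_card_filter_not (s := A) (fun n => vec n n₀ ∈
          Submodule.span ℚ (Set.range fun i => vec (t i) n₀))
      omega
    have hsub : ((tup A n₀ k).sigma (fun t => A.filter (fun n => vec n n₀ ∉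
        Submodule.span ℚ (Set.range fun i => vec (t i) n₀)))).card ≤ (tup A n₀ (k + 1)).card := by
      apply Finset.card_le_card_of_injOn
        (fun z : (_ : Fin k → ℕ) × ℕ => (Fin.cons z.2 z.1 : Fin (k + 1) → ℕ))
      · rintro ⟨t, n⟩ hz
        rw [Finset.mem_coe, Finset.mem_sigma] at hz
        obtain ⟨ht, hn⟩ := hz
        simp only at ht hn
        unfold tup at ht
        rw [Finset.mem_filter, Fintype.mem_piFinset] at ht
        rw [Finset.mem_filter] at hn
        rw [Finset.mem_coe]
        unfold tup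
        rw [Finset.mem_filter, Fintype.mem_piFinset]
        constructor
        · intro i
          refine Fin.cases ?_ (fun j => ?_) i
          · simp only [Fin.cons_zero]; exact hn.1
          · simp only [Fin.cons_succ]; exact ht.1 j
        · have h4 : (fun i => vec ((Fin.cons n t : Fin (k + 1) → ℕ) i) n₀)
              = Fin.cons (vec n n₀) (fun i => vec (t i) n₀) := by
            funext i
            refine Fin.cases ?_ (fun j => ?_) i
            · simp
            · simp
          simp only
          rw [h4, linearIndependent_finCons]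
          exact ⟨ht.2, hn.2⟩
      · rintro ⟨t, n⟩ _ ⟨t', n'⟩ _ h
        simp only at h
        have h5 := Fin.cons_injective2 h
        rw [h5.1, h5.2]
    refine le_trans ?_ hsub
    rw [Finset.card_sigma, pow_succ]
    calc (A.card - (B + 1) ^ s) ^ k * (A.card - (B + 1) ^ s)
        ≤ (tup A n₀ k).card * (A.card - (B + 1) ^ s) := Nat.mul_le_mul_right _ ih'
      _ = ∑ _t ∈ tup A n₀ k, (A.card - (B + 1) ^ s) := by rw [Finset.sum_const, smul_eq_mul]
      _ ≤ _ := Finset.sum_le_sum hgood

end Pool.Agent.H.MP_3e6494_nt.h26t
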