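import Mathlib
import Pool.Agent.H.MP_3e6494_nt.h26t.Piv

/-!
Exceptional primes: (a) subgroups of order `≤ J` containing `r` independent elements of a given
family; (b) subgroups of order `≤ J` one of whose cosets contains many integers up to `N`.
-/

open Finset

set_option linter.unusedSectionVars false
set_option linter.unusedVariables false

namespace Pool.Agent.H.MP_3e6494_nt.h26t

open Pool.Agent.H.MP_3e6494_nt.T3Prime Pool.Agent.H.MP_3e6494_nt.T3Exc
  Pool.Agent.H.MP_3e6494_nt.T3Cnt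

/-- (a) outside a small set of primes `q`, the elements of a finite family `Φ` of pairs whose
quotients lie in a subgroup of order `≤ J` are controlled by fewer than `r` pivot primes -/
theorem pivots_count (Φ : Finset (ℕ × ℕ)) (B E J r : ℕ) (hr : 1 ≤ r) (hJ : J < (E + 1) ^ r)
    (hΦ : ∀ z ∈ Φ, (z.1 ≠ 0 ∧ z.2 ≠ 0) ∧ z.1 ≤ 2 ^ B ∧ z.2 ≤ 2 ^ B) :
    ∃ 𝒮 : Finset ℕ, 𝒮.card ≤ Φ.card ^ r * ((2 * E + 1) ^ r * (r * B * E)) ∧
      ∀ (q : ℕ) [Fact q.Prime], q ∉ 𝒮 → ∀ K : Subgroup (ZMod q)ˣ, Nat.card K ≤ J →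
        ∃ P : Finset ℕ, P.card < r ∧
          (∀ p ∈ P, p.Prime ∧ ∃ z ∈ Φ, z.1.Coprime q ∧ z.2.Coprime q ∧ (p ∣ z.1 ∨ p ∣ z.2)) ∧
          ∀ z ∈ Φ, z.1.Coprime q → z.2.Coprime q →
          u q z.1 * (u q z.2)⁻¹ ∈ K → (∀ p ∈ P, z.1.factorization p = z.2.factorization p) →
            z.1 = z.2 := by
  classical
  refine ⟨(Fintype.piFinset (fun _ : Fin r => Φ)).biUnion
    (fun t => primesOf (fun i => (t i).1) (fun i => (t i).2) E), ?_, ?_⟩
  · have h1 : (Fintype.piFinset (fun _ : Fin r => Φ)).card = Φ.card ^ r := by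
      rw [Fintype.card_piFinset, Finset.prod_const, Finset.card_univ, Fintype.card_fin]
    rw [← h1]
    apply Finset.card_biUnion_le_card_mul
    intro t ht
    rw [Fintype.mem_piFinset] at ht
    exact card_primesOf_le (fun i => (hΦ _ (ht i)).2.1) (fun i => (hΦ _ (ht i)).2.2)
  · intro q _ hq K hK
    obtain ⟨P, hP1, hP3, hP2⟩ := pivots_of_no_tuple
      (Φ.filter (fun z => z.1.Coprime q ∧ z.2.Coprime q ∧ u q z.1 * (u q z.2)⁻¹ ∈ K))
      (fun z => vec z.1 z.2) r hr (by
        intro t ht hind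
        apply hq
        rw [Finset.mem_biUnion]
        refine ⟨t, ?_, ?_⟩
        · rw [Fintype.mem_piFinset]
          intro i
          exact (Finset.mem_filter.1 (ht i)).1
        · have ht' := fun i => (Finset.mem_filter.1 (ht i))
          exact mem_primesOf (fun i => (hΦ _ (ht' i).1).1.1) (fun i => (hΦ _ (ht' i).1).1.2)
            (fun i => (ht' i).2.1) (fun i => (ht' i).2.2.1) K (lt_of_le_of_lt hK hJ)
            (fun i => (ht' i).2.2.2) hind)
    refine ⟨P, hP1, ?_, ?_⟩
    · intro p hp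
      obtain ⟨z, hz, hzp⟩ := hP3 p hp
      rw [Finset.mem_filter] at hz
      have hor : z.1.factorization p ≠ 0 ∨ z.2.factorization p ≠ 0 := by
        by_contra hcon
        push Not at hcon
        apply hzp
        unfold vec
        rw [hcon.1, hcon.2, sub_self]
      have hpr : p.Prime := by
        rcases hor with h | h
        · by_contra hnp
          exact h (Nat.factorization_eq_zero_of_not_prime _ hnp)
        · by_contra hnp
          exact h (Nat.factorization_eq_zero_of_not_prime _ hnp)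
      refine ⟨hpr, z, hz.1, hz.2.1, hz.2.2.1, ?_⟩
      rcases hor with h | h
      · left
        by_contra hd
        exact h (Nat.factorization_eq_zero_of_not_dvd hd)
      · right
        by_contra hd
        exact h (Nat.factorization_eq_zero_of_not_dvd hd)
    intro z hz h1 h2 h3 h4
    apply vec_eq_zero (hΦ z hz).1.1 (hΦ z hz).1.2
    apply hP2 z (Finset.mem_filter.2 ⟨hz, h1, h2, h3⟩)
    intro p hp
    unfold vec
    rw [h4 p hp, sub_self]

/-- (b) outside a small set of primes `q`, no coset of a subgroup of order `≤ J` contains many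
integers up to `N` -/
theorem tail_count (N B E J r T : ℕ) (hr : 1 ≤ r) (hJ : J < (E + 1) ^ r) (hN : N ≤ 2 ^ B)
    (hT : 1 ≤ T) :
    ∃ 𝒮 : Finset ℕ, 𝒮.card * T ^ (r + 1) ≤ N ^ (r + 1) * ((2 * E + 1) ^ r * (r * B * E)) ∧
      ∀ (q : ℕ) [Fact q.Prime], q ∉ 𝒮 → ∀ K : Subgroup (ZMod q)ˣ, Nat.card K ≤ J →
        ∀ c : (ZMod q)ˣ, (A K (u q) c N).card < 2 * max ((B + 1) ^ (r - 1)) T := by
  classical
  -- all tuples
  set U : Finset (ℕ × (Fin r → ℕ)) :=
    (Finset.Icc 1 N) ×ˢ (Fintype.piFinset (fun _ : Fin r => Finset.Icc 1 N)) with hU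
  set PP : ℕ × (Fin r → ℕ) → Finset ℕ := fun z => primesOf z.2 (fun _ => z.1) E with hPP
  have hUc : U.card = N ^ (r + 1) := by
    rw [hU, Finset.card_product, Fintype.card_piFinset, Finset.prod_const, Finset.card_univ,
      Fintype.card_fin, Nat.card_Icc, pow_succ]
    simp only [Nat.add_sub_cancel]
    ring
  have hPPc : ∀ z ∈ U, (PP z).card ≤ (2 * E + 1) ^ r * (r * B * E) := by
    intro z hz
    rw [hU, Finset.mem_product, Fintype.mem_piFinset] at hz
    apply card_primesOf_le
    · intro i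
      exact (Finset.mem_Icc.1 (hz.2 i)).2.trans hN
    · intro i
      exact (Finset.mem_Icc.1 hz.1).2.trans hN
  refine ⟨(U.biUnion PP).filter (fun q => T ^ (r + 1) ≤ (U.filter (fun z => q ∈ PP z)).card),
    ?_, ?_⟩
  · set 𝒮 := (U.biUnion PP).filter (fun q => T ^ (r + 1) ≤ (U.filter (fun z => q ∈ PP z)).card)
      with h𝒮
    calc 𝒮.card * T ^ (r + 1) = ∑ _q ∈ 𝒮, T ^ (r + 1) := by rw [Finset.sum_const, smul_eq_mul]
      _ ≤ ∑ q ∈ 𝒮, (U.filter (fun z => q ∈ PP z)).card := by
          apply Finset.sum_le_sum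
          intro q hq
          exact (Finset.mem_filter.1 hq).2
      _ = ∑ q ∈ 𝒮, ∑ z ∈ U, (if q ∈ PP z then 1 else 0) := by
          apply Finset.sum_congr rfl
          intro q _
          rw [Finset.card_filter]
      _ = ∑ z ∈ U, ∑ q ∈ 𝒮, (if q ∈ PP z then 1 else 0) := Finset.sum_comm
      _ ≤ ∑ z ∈ U, (PP z).card := by
          apply Finset.sum_le_sum
          intro z _
          rw [← Finset.card_filter]
          apply Finset.card_le_card
          intro q hq
          exact (Finset.mem_filter.1 hq).2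
      _ ≤ ∑ _z ∈ U, (2 * E + 1) ^ r * (r * B * E) := Finset.sum_le_sum hPPc
      _ = _ := by rw [Finset.sum_const, smul_eq_mul, hUc]
  · intro q _ hq K hK c
    by_contra hcon
    push Not at hcon
    apply hq
    set L := (B + 1) ^ (r - 1) with hL
    set S := A K (u q) c N with hS
    have hmemS : ∀ n ∈ S, (1 ≤ n ∧ n ≤ N) ∧ n.Coprime q ∧ u q n * c ∈ K := by
      intro n hn
      rw [hS] at hn
      unfold A at hn
      rw [Finset.mem_filter, Finset.mem_Icc] at hn
      exact hn
    have hS2 : ∀ n ∈ S, n ≠ 0 ∧ n ≤ 2 ^ B := by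
      intro n hn
      obtain ⟨⟨h1, h2⟩, _⟩ := hmemS n hn
      exact ⟨by omega, h2.trans hN⟩
    have hcard1 : L ≤ max L T := le_max_left _ _
    have hcard2 : T ≤ max L T := le_max_right _ _
    have hST : T ≤ S.card - L := by omega
    have hmany : T ^ (r + 1) ≤ (U.filter (fun z => q ∈ PP z)).card := by
      have h1 : (S.sigma (fun n₀ => tup S n₀ r)).card ≤ (U.filter (fun z => q ∈ PP z)).card := by
        apply Finset.card_le_card_of_injOn
          (fun z : (_ : ℕ) × (Fin r → ℕ) => ((z.1, z.2) : ℕ × (Fin r → ℕ)))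
        · rintro ⟨n₀, t⟩ hz
          rw [Finset.mem_coe, Finset.mem_sigma] at hz
          obtain ⟨hn, ht⟩ := hz
          simp only at hn ht
          unfold tup at ht
          rw [Finset.mem_filter, Fintype.mem_piFinset] at ht
          obtain ⟨ht1, ht2⟩ := ht
          rw [Finset.mem_coe, Finset.mem_filter, hU, Finset.mem_product, Fintype.mem_piFinset]
          refine ⟨⟨Finset.mem_Icc.2 (hmemS n₀ hn).1, fun i => Finset.mem_Icc.2 (hmemS _ (ht1 i)).1⟩,
            ?_⟩
          rw [hPP]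
          apply mem_primesOf (fun i => (hS2 _ (ht1 i)).1) (fun _ => (hS2 _ hn).1)
            (fun i => (hmemS _ (ht1 i)).2.1) (fun _ => (hmemS _ hn).2.1) K
            (lt_of_le_of_lt hK hJ) _ ht2
          intro i
          have h3 := K.mul_mem (hmemS _ (ht1 i)).2.2 (K.inv_mem (hmemS _ hn).2.2)
          have h4 : u q (t i) * c * (u q n₀ * c)⁻¹ = u q (t i) * (u q n₀)⁻¹ := by
            rw [mul_inv]
            rw [mul_mul_mul_comm, mul_inv_cancel, mul_one]
          rw [h4] at h3
          exact h3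
        · rintro ⟨n₀, t⟩ _ ⟨n₀', t'⟩ _ h
          simp only [Prod.mk.injEq] at h
          rw [h.1, h.2]
      refine le_trans ?_ h1
      rw [Finset.card_sigma]
      calc T ^ (r + 1) = T * T ^ r := by rw [pow_succ, mul_comm]
        _ ≤ S.card * (S.card - L) ^ r :=
            Nat.mul_le_mul (by omega) (Nat.pow_le_pow_left hST r)
        _ = ∑ _n ∈ S, (S.card - L) ^ r := by rw [Finset.sum_const, smul_eq_mul]
        _ ≤ ∑ n₀ ∈ S, (tup S n₀ r).card := by
            apply Finset.sum_le_sum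
            intro n₀ _
            exact card_tup_ge S B (r - 1) n₀ hS2 r (by omega)
    rw [Finset.mem_filter]
    refine ⟨?_, hmany⟩
    have hpos : 0 < (U.filter (fun z => q ∈ PP z)).card :=
      lt_of_lt_of_le (pow_pos (by omega) _) hmany
    obtain ⟨z, hz⟩ := Finset.card_pos.1 hpos
    rw [Finset.mem_filter] at hz
    exact Finset.mem_biUnion.2 ⟨z, hz.1, hz.2⟩

end Pool.Agent.H.MP_3e6494_nt.h26t
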