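import Mathlib
import Pool.Agent.H.MP_3e6494_nt.h26t.Tail

/-!
The exceptional primes of one dyadic level, with real exponents.
-/

open Finset

set_option linter.unusedSectionVars false
set_option linter.unusedVariables false

namespace Pool.Agent.H.MP_3e6494_nt.h26t

open Pool.Agent.H.MP_3e6494_nt.T3Prime Pool.Agent.H.MP_3e6494_nt.T3Exc
  Pool.Agent.H.MP_3e6494_nt.T3Cnt

/-- the exponent bound of the level `k` -/
noncomputable def Ek (κ : ℝ) (r k : ℕ) : ℕ := ⌊((2 : ℝ) ^ (k + 1)) ^ (κ / r)⌋₊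

lemma Jk_lt (κ : ℝ) (r k : ℕ) (hr : 1 ≤ r) : Jk κ k < (Ek κ r k + 1) ^ r := by
  have hQ : (0 : ℝ) < (2 : ℝ) ^ (k + 1) := by positivity
  have hr0 : (r : ℝ) ≠ 0 := by
    have : (0 : ℝ) < r := by exact_mod_cast hr
    exact this.ne'
  have h1 : ((2 : ℝ) ^ (k + 1)) ^ (κ / r) < (Ek κ r k : ℝ) + 1 := Nat.lt_floor_add_one _
  have h2 : ((2 : ℝ) ^ (k + 1)) ^ κ = (((2 : ℝ) ^ (k + 1)) ^ (κ / r)) ^ r := by
    rw [← Real.rpow_natCast (((2 : ℝ) ^ (k + 1)) ^ (κ / r)) r, ← Real.rpow_mul hQ.le,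
      div_mul_cancel₀ _ hr0]
  have h3 : (Jk κ k : ℝ) ≤ ((2 : ℝ) ^ (k + 1)) ^ κ := Nat.floor_le (by positivity)
  have h4 : (((2 : ℝ) ^ (k + 1)) ^ (κ / r)) ^ r < ((Ek κ r k : ℝ) + 1) ^ r :=
    pow_lt_pow_left₀ h1 (by positivity) (by omega)
  have h5 : (Jk κ k : ℝ) < ((Ek κ r k : ℝ) + 1) ^ r := by
    rw [h2] at h3
    exact lt_of_le_of_lt h3 h4
  exact_mod_cast h5

lemma Ek_bound (κ : ℝ) (hκ0 : 0 ≤ κ) (hκ1 : κ ≤ 1) (r k : ℕ) (hr : 1 ≤ r) :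
    ((2 * Ek κ r k + 1 : ℕ) : ℝ) ^ r * (Ek κ r k : ℝ)
      ≤ 4 * 3 ^ r * ((2 : ℝ) ^ k) ^ (κ * (1 + 1 / r)) := by
  have hr0 : (0 : ℝ) < r := by exact_mod_cast hr
  have hQ : (0 : ℝ) < (2 : ℝ) ^ k := by positivity
  set x : ℝ := ((2 : ℝ) ^ (k + 1)) ^ (κ / r) with hx
  have hx1 : 1 ≤ x := Real.one_le_rpow (one_le_pow₀ (by norm_num)) (by positivity)
  have hE : (Ek κ r k : ℝ) ≤ x := Nat.floor_le (by positivity)
  have h1 : ((2 * Ek κ r k + 1 : ℕ) : ℝ) ≤ 3 * x := by push_cast; linarith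
  have h2 : x ^ (r + 1) ≤ 4 * ((2 : ℝ) ^ k) ^ (κ * (1 + 1 / r)) := by
    have e1 : x ^ (r + 1) = ((2 : ℝ) ^ (k + 1)) ^ (κ * (1 + 1 / r)) := by
      rw [hx, ← Real.rpow_natCast (((2 : ℝ) ^ (k + 1)) ^ (κ / r)) (r + 1),
        ← Real.rpow_mul (by positivity)]
      congr 1
      push_cast
      field_simp
    rw [e1, pow_succ, Real.mul_rpow hQ.le (by norm_num), mul_comm]
    apply mul_le_mul_of_nonneg_right _ (by positivity)
    have h3 : κ * (1 + 1 / r) ≤ 2 := by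
      have h4 : (1 : ℝ) / r ≤ 1 := by
        rw [div_le_one hr0]; exact_mod_cast hr
      nlinarith
    calc (2 : ℝ) ^ (κ * (1 + 1 / r)) ≤ 2 ^ (2 : ℝ) :=
          Real.rpow_le_rpow_of_exponent_le (by norm_num) h3
      _ = 4 := by norm_num
  calc ((2 * Ek κ r k + 1 : ℕ) : ℝ) ^ r * (Ek κ r k : ℝ)
      ≤ (3 * x) ^ r * x := by gcongr
    _ = 3 ^ r * x ^ (r + 1) := by rw [mul_pow, pow_succ]; ring
    _ ≤ 3 ^ r * (4 * ((2 : ℝ) ^ k) ^ (κ * (1 + 1 / r))) := by gcongr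
    _ = _ := by ring

lemma card_le_Jk {κ : ℝ} (hκ0 : 0 ≤ κ) {q k : ℕ} (hqk : q < 2 ^ (k + 1)) {n : ℕ}
    (hn : (n : ℝ) ≤ (q : ℝ) ^ κ) : n ≤ Jk κ k := by
  unfold Jk
  apply Nat.le_floor
  refine hn.trans ?_
  apply Real.rpow_le_rpow (Nat.cast_nonneg _) _ hκ0
  exact_mod_cast hqk.le

/-- pivots at the level `k` -/
theorem pivots_level (κ : ℝ) (hκ0 : 0 ≤ κ) (hκ1 : κ ≤ 1) (r k : ℕ) (hr : 1 ≤ r)
    (Φ : Finset (ℕ × ℕ)) (B : ℕ)
    (hΦ : ∀ z ∈ Φ, (z.1 ≠ 0 ∧ z.2 ≠ 0) ∧ z.1 ≤ 2 ^ B ∧ z.2 ≤ 2 ^ B) :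
    ∃ 𝒮 : Finset ℕ, (𝒮.card : ℝ) ≤ (Φ.card : ℝ) ^ r * (r * B * (4 * 3 ^ r)) *
        ((2 : ℝ) ^ k) ^ (κ * (1 + 1 / r)) ∧
      ∀ (q : ℕ) [Fact q.Prime], q < 2 ^ (k + 1) → q ∉ 𝒮 → ∀ K : Subgroup (ZMod q)ˣ,
        ((Nat.card K : ℕ) : ℝ) ≤ (q : ℝ) ^ κ →
        ∃ P : Finset ℕ, P.card < r ∧
          (∀ p ∈ P, p.Prime ∧ ∃ z ∈ Φ, z.1.Coprime q ∧ z.2.Coprime q ∧ (p ∣ z.1 ∨ p ∣ z.2)) ∧
          ∀ z ∈ Φ, z.1.Coprime q → z.2.Coprime q →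
          u q z.1 * (u q z.2)⁻¹ ∈ K → (∀ p ∈ P, z.1.factorization p = z.2.factorization p) →
            z.1 = z.2 := by
  obtain ⟨𝒮, h1, h2⟩ := pivots_count Φ B (Ek κ r k) (Jk κ k) r hr (Jk_lt κ r k hr) hΦ
  refine ⟨𝒮, ?_, ?_⟩
  · have h3 : (𝒮.card : ℝ) ≤ (Φ.card : ℝ) ^ r *
        (((2 * Ek κ r k + 1 : ℕ) : ℝ) ^ r * (r * B * (Ek κ r k : ℝ))) := by exact_mod_cast h1
    refine h3.trans ?_
    have h4 := Ek_bound κ hκ0 hκ1 r k hr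
    calc (Φ.card : ℝ) ^ r * (((2 * Ek κ r k + 1 : ℕ) : ℝ) ^ r * (r * B * (Ek κ r k : ℝ)))
        = (Φ.card : ℝ) ^ r * (r * B) *
            (((2 * Ek κ r k + 1 : ℕ) : ℝ) ^ r * (Ek κ r k : ℝ)) := by ring
      _ ≤ (Φ.card : ℝ) ^ r * (r * B) * (4 * 3 ^ r * ((2 : ℝ) ^ k) ^ (κ * (1 + 1 / r))) := by
          gcongr
      _ = _ := by ring
  · intro q _ hqk hq K hK
    exact h2 q hq K (card_le_Jk hκ0 hqk hK)

/-- the tail sums at the level `k` -/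
theorem tail_level (κ δ : ℝ) (hκ0 : 0 ≤ κ) (hκ1 : κ ≤ 1) (hδ : 0 ≤ δ) (r k M : ℕ) (hr : 1 ≤ r) :
    ∃ 𝒮 : Finset ℕ, (𝒮.card : ℝ) ≤ ((M : ℝ) + 1) ^ 2 * (r * (4 * 3 ^ r)) *
        ((2 : ℝ) ^ k) ^ (δ * (r + 1) + κ * (1 + 1 / r)) ∧
      ∀ (q : ℕ) [Fact q.Prime], q < 2 ^ (k + 1) → q ∉ 𝒮 → ∀ K : Subgroup (ZMod q)ˣ,
        ((Nat.card K : ℕ) : ℝ) ≤ (q : ℝ) ^ κ → ∀ c : (ZMod q)ˣ, ∀ X Z : ℕ, X ≤ 2 ^ M → 1 ≤ Z →
        ∑ n ∈ (A K (u q) c X).filter (fun n => Z < n), (1 / (n : ℝ))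
          ≤ 4 * ((M : ℝ) + 1) * ((((M : ℝ) + 1) ^ (r - 1) + 1) / Z + ((2 : ℝ) ^ k) ^ (-δ)) := by
  classical
  have hQ : (0 : ℝ) < (2 : ℝ) ^ k := by positivity
  have hQ1 : (1 : ℝ) ≤ (2 : ℝ) ^ k := one_le_pow₀ (by norm_num)
  set T : ℕ → ℕ := fun j => ⌈(2 : ℝ) ^ j * ((2 : ℝ) ^ k) ^ (-δ)⌉₊ with hT
  have hTpos : ∀ j, 1 ≤ T j := by
    intro j
    rw [hT]
    apply Nat.one_le_iff_ne_zero.2
    have : 0 < (2 : ℝ) ^ j * ((2 : ℝ) ^ k) ^ (-δ) := by positivity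
    exact (Nat.ceil_pos.2 this).ne'
  choose 𝒮 h𝒮1 h𝒮2 using fun j : ℕ =>
    tail_count (2 ^ j) j (Ek κ r k) (Jk κ k) r (T j) hr (Jk_lt κ r k hr) le_rfl (hTpos j)
  refine ⟨(Finset.range (M + 1)).biUnion 𝒮, ?_, ?_⟩
  · have hone : ∀ j ∈ Finset.range (M + 1), ((𝒮 j).card : ℝ) ≤ ((M : ℝ) + 1) * (r * (4 * 3 ^ r)) *
        ((2 : ℝ) ^ k) ^ (δ * (r + 1) + κ * (1 + 1 / r)) := by
      intro j hj
      have hjM : (j : ℝ) ≤ (M : ℝ) + 1 := by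
        have := Finset.mem_range.1 hj
        have h0 : j ≤ M + 1 := this.le
        exact_mod_cast h0
      have h1 : ((𝒮 j).card : ℝ) * (T j : ℝ) ^ (r + 1) ≤ ((2 : ℝ) ^ j) ^ (r + 1) *
          (((2 * Ek κ r k + 1 : ℕ) : ℝ) ^ r * (r * j * (Ek κ r k : ℝ))) := by
        exact_mod_cast h𝒮1 j
      have h2 : (2 : ℝ) ^ j * ((2 : ℝ) ^ k) ^ (-δ) ≤ (T j : ℝ) := Nat.le_ceil _
      have h3 : ((2 : ℝ) ^ j) ^ (r + 1) * (((2 : ℝ) ^ k) ^ (-δ)) ^ (r + 1) ≤ (T j : ℝ) ^ (r + 1) := by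
        rw [← mul_pow]
        exact pow_le_pow_left₀ (by positivity) h2 _
      have h4 : ((𝒮 j).card : ℝ) * (((2 : ℝ) ^ j) ^ (r + 1) * (((2 : ℝ) ^ k) ^ (-δ)) ^ (r + 1))
          ≤ ((2 : ℝ) ^ j) ^ (r + 1) *
          (((2 * Ek κ r k + 1 : ℕ) : ℝ) ^ r * (r * j * (Ek κ r k : ℝ))) :=
        (mul_le_mul_of_nonneg_left h3 (Nat.cast_nonneg _)).trans h1
      have h5 : ((𝒮 j).card : ℝ) * (((2 : ℝ) ^ k) ^ (-δ)) ^ (r + 1)
          ≤ ((2 * Ek κ r k + 1 : ℕ) : ℝ) ^ r * (r * j * (Ek κ r k : ℝ)) := by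
        have hp : (0 : ℝ) < ((2 : ℝ) ^ j) ^ (r + 1) := by positivity
        have h6 : ((2 : ℝ) ^ j) ^ (r + 1) * (((𝒮 j).card : ℝ) * (((2 : ℝ) ^ k) ^ (-δ)) ^ (r + 1))
            ≤ ((2 : ℝ) ^ j) ^ (r + 1) *
              (((2 * Ek κ r k + 1 : ℕ) : ℝ) ^ r * (r * j * (Ek κ r k : ℝ))) := by
          refine le_trans (le_of_eq ?_) h4
          ring
        exact le_of_mul_le_mul_left h6 hp
      have h7 : (((2 : ℝ) ^ k) ^ (-δ)) ^ (r + 1) * ((2 : ℝ) ^ k) ^ (δ * (r + 1)) = 1 := by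
        rw [← Real.rpow_natCast (((2 : ℝ) ^ k) ^ (-δ)) (r + 1), ← Real.rpow_mul hQ.le,
          ← Real.rpow_add hQ]
        rw [show -δ * ((r + 1 : ℕ) : ℝ) + δ * (r + 1) = 0 by push_cast; ring, Real.rpow_zero]
      calc ((𝒮 j).card : ℝ)
          = (((𝒮 j).card : ℝ) * (((2 : ℝ) ^ k) ^ (-δ)) ^ (r + 1)) *
              ((2 : ℝ) ^ k) ^ (δ * (r + 1)) := by rw [mul_assoc, h7, mul_one]
        _ ≤ (((2 * Ek κ r k + 1 : ℕ) : ℝ) ^ r * (r * j * (Ek κ r k : ℝ))) *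
              ((2 : ℝ) ^ k) ^ (δ * (r + 1)) := by gcongr
        _ = (r * j) * (((2 * Ek κ r k + 1 : ℕ) : ℝ) ^ r * (Ek κ r k : ℝ)) *
              ((2 : ℝ) ^ k) ^ (δ * (r + 1)) := by ring
        _ ≤ (r * ((M : ℝ) + 1)) * (4 * 3 ^ r * ((2 : ℝ) ^ k) ^ (κ * (1 + 1 / r))) *
              ((2 : ℝ) ^ k) ^ (δ * (r + 1)) := by
            have := Ek_bound κ hκ0 hκ1 r k hr
            gcongr
        _ = ((M : ℝ) + 1) * (r * (4 * 3 ^ r)) * (((2 : ℝ) ^ k) ^ (δ * (r + 1)) *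
              ((2 : ℝ) ^ k) ^ (κ * (1 + 1 / r))) := by ring
        _ = _ := by rw [← Real.rpow_add hQ]
    calc (((Finset.range (M + 1)).biUnion 𝒮).card : ℝ)
        ≤ ∑ j ∈ Finset.range (M + 1), ((𝒮 j).card : ℝ) := by exact_mod_cast Finset.card_biUnion_le
      _ ≤ ∑ _j ∈ Finset.range (M + 1), ((M : ℝ) + 1) * (r * (4 * 3 ^ r)) *
            ((2 : ℝ) ^ k) ^ (δ * (r + 1) + κ * (1 + 1 / r)) := Finset.sum_le_sum hone
      _ = _ := by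
          rw [Finset.sum_const, Finset.card_range, nsmul_eq_mul]
          push_cast
          ring
  · intro q _ hqk hq K hK c X Z hX hZ
    have hK' := card_le_Jk hκ0 hqk hK
    have hZ0 : (0 : ℝ) < Z := by exact_mod_cast hZ
    have hcount : ∀ j ∈ Finset.range (M + 1), ((A K (u q) c (2 ^ j)).card : ℝ)
        ≤ 2 * (((M : ℝ) + 1) ^ (r - 1) + 1 + (2 : ℝ) ^ j * ((2 : ℝ) ^ k) ^ (-δ)) := by
      intro j hj
      have hjM : j ≤ M := Nat.lt_succ_iff.1 (Finset.mem_range.1 hj)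
      have h1 := h𝒮2 j q (fun h => hq (Finset.mem_biUnion.2 ⟨j, hj, h⟩)) K hK' c
      have h2 : ((A K (u q) c (2 ^ j)).card : ℝ) ≤ 2 * (((j : ℝ) + 1) ^ (r - 1) + (T j : ℝ)) := by
        have h3 : (A K (u q) c (2 ^ j)).card ≤ 2 * ((j + 1) ^ (r - 1) + T j) := by
          refine h1.le.trans (Nat.mul_le_mul_left _ ?_)
          exact max_le (Nat.le_add_right _ _) (Nat.le_add_left _ _)
        exact_mod_cast h3
      refine h2.trans ?_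
      have h4 : (T j : ℝ) ≤ (2 : ℝ) ^ j * ((2 : ℝ) ^ k) ^ (-δ) + 1 :=
        (Nat.ceil_lt_add_one (by positivity)).le
      have h5 : ((j : ℝ) + 1) ^ (r - 1) ≤ ((M : ℝ) + 1) ^ (r - 1) := by
        have : (j : ℝ) ≤ M := by exact_mod_cast hjM
        gcongr
      linarith
    -- split according to the dyadic size
    have hmaps : ∀ n ∈ (A K (u q) c X).filter (fun n => Z < n), Nat.clog 2 n ∈ Finset.range (M + 1) := by
      intro n hn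
      rw [Finset.mem_filter] at hn
      unfold A at hn
      rw [Finset.mem_filter, Finset.mem_Icc] at hn
      rw [Finset.mem_range]
      have h1 : n ≤ 2 ^ M := hn.1.1.2.trans hX
      have h2 := Nat.clog_mono_right 2 h1
      rw [Nat.clog_pow 2 M (by norm_num)] at h2
      omega
    rw [← Finset.sum_fiberwise_of_maps_to hmaps]
    have hfib : ∀ j ∈ Finset.range (M + 1),
        ∑ n ∈ ((A K (u q) c X).filter (fun n => Z < n)).filter (fun n => Nat.clog 2 n = j),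
          (1 / (n : ℝ)) ≤ 4 * ((((M : ℝ) + 1) ^ (r - 1) + 1) / Z + ((2 : ℝ) ^ k) ^ (-δ)) := by
      intro j hj
      set F := ((A K (u q) c X).filter (fun n => Z < n)).filter (fun n => Nat.clog 2 n = j) with hF
      by_cases hne : F.Nonempty
      · obtain ⟨n₁, hn₁⟩ := hne
        have hmem : ∀ n ∈ F, n ∈ A K (u q) c (2 ^ j) ∧ Z < n ∧ n ≤ 2 ^ j ∧ 2 ^ j < 2 * n := by
          intro n hn
          rw [hF, Finset.mem_filter, Finset.mem_filter] at hn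
          obtain ⟨⟨h1, h2⟩, h3⟩ := hn
          have h4 : n ≤ 2 ^ j := by rw [← h3]; exact Nat.le_pow_clog (by norm_num) n
          have h1' := h1
          unfold A at h1 ⊢
          rw [Finset.mem_filter, Finset.mem_Icc] at h1 ⊢
          have hn1 : 1 < n := by omega
          have h5 : 2 ^ (Nat.clog 2 n).pred < n := Nat.pow_pred_clog_lt_self (by norm_num) hn1
          have h6 : 0 < Nat.clog 2 n := Nat.clog_pos (by norm_num) hn1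
          refine ⟨⟨⟨h1.1.1, h4⟩, h1.2⟩, h2, h4, ?_⟩
          rw [h3] at h5 h6
          have h7 : 2 ^ j = 2 * 2 ^ j.pred := by
            conv_lhs => rw [← Nat.succ_pred_eq_of_pos h6, pow_succ]
            ring
          omega
        have hZj : (Z : ℝ) ≤ (2 : ℝ) ^ j := by
          obtain ⟨_, h1, h2, _⟩ := hmem n₁ hn₁
          have : Z ≤ 2 ^ j := by omega
          exact_mod_cast this
        have h2j : (0 : ℝ) < (2 : ℝ) ^ j := by positivity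
        have hcardF : (F.card : ℝ) ≤
            2 * (((M : ℝ) + 1) ^ (r - 1) + 1 + (2 : ℝ) ^ j * ((2 : ℝ) ^ k) ^ (-δ)) := by
          have h1 : F.card ≤ (A K (u q) c (2 ^ j)).card :=
            Finset.card_le_card fun n hn => (hmem n hn).1
          have h2 : (F.card : ℝ) ≤ ((A K (u q) c (2 ^ j)).card : ℝ) := by exact_mod_cast h1
          exact h2.trans (hcount j hj)
        calc ∑ n ∈ F, (1 / (n : ℝ)) ≤ ∑ _n ∈ F, 2 / (2 : ℝ) ^ j := by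
              apply Finset.sum_le_sum
              intro n hn
              obtain ⟨_, h1, h2, h3⟩ := hmem n hn
              have hn0 : (0 : ℝ) < n := by
                have : 0 < n := by omega
                exact_mod_cast this
              rw [div_le_div_iff₀ hn0 h2j, one_mul]
              exact_mod_cast h3.le
          _ = F.card * (2 / (2 : ℝ) ^ j) := by rw [Finset.sum_const, nsmul_eq_mul]
          _ ≤ (2 * (((M : ℝ) + 1) ^ (r - 1) + 1 + (2 : ℝ) ^ j * ((2 : ℝ) ^ k) ^ (-δ))) *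
                (2 / (2 : ℝ) ^ j) := by gcongr
          _ = 4 * ((((M : ℝ) + 1) ^ (r - 1) + 1) / (2 : ℝ) ^ j + ((2 : ℝ) ^ k) ^ (-δ)) := by
              field_simp
              ring
          _ ≤ _ := by gcongr
      · rw [Finset.not_nonempty_iff_eq_empty.1 hne, Finset.sum_empty]
        positivity
    calc ∑ j ∈ Finset.range (M + 1), ∑ n ∈ ((A K (u q) c X).filter (fun n => Z < n)).filter
          (fun n => Nat.clog 2 n = j), (1 / (n : ℝ))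
        ≤ ∑ _j ∈ Finset.range (M + 1),
            4 * ((((M : ℝ) + 1) ^ (r - 1) + 1) / Z + ((2 : ℝ) ^ k) ^ (-δ)) :=
          Finset.sum_le_sum hfib
      _ = _ := by
          rw [Finset.sum_const, Finset.card_range, nsmul_eq_mul]
          push_cast
          ring

end Pool.Agent.H.MP_3e6494_nt.h26t
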