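import Mathlib
import Pool.Agent.H.MP_3e6494_nt.h26t.Level

/-!
Exceptional primes for indexed families of relations: outside a small set of primes `q`, all but
fewer than `T` of the relations of the family which hold modulo a subgroup of order `≤ J` are
controlled by fewer than `r` pivot primes.
-/

open Finset

set_option linter.unusedSectionVars false
set_option linter.unusedVariables false

namespace Pool.Agent.H.MP_3e6494_nt.h26t

open Pool.Agent.H.MP_3e6494_nt.T3Prime Pool.Agent.H.MP_3e6494_nt.T3Exc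
  Pool.Agent.H.MP_3e6494_nt.T3Cnt

open scoped Classical in
/-- the independent `k`-tuples of a finite family of vectors -/
noncomputable def ftup {ι : Type*} (S : Finset ι) (v : ι → ℕ → ℚ) (k : ℕ) : Finset (Fin k → ι) :=
  (Fintype.piFinset (fun _ : Fin k => S)).filter (fun t => LinearIndependent ℚ (fun i => v (t i)))

open scoped Classical in
/-- greedy extension: if every small subspace spanned by the family misses at least `T` members,
there are at least `T ^ k` independent `k`-tuples -/
theorem card_ftup_ge {ι : Type*} (S : Finset ι) (v : ι → ℕ → ℚ) (r T : ℕ)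
    (h : ∀ k < r, ∀ t ∈ ftup S v k,
      T ≤ (S.filter (fun i => v i ∉ Submodule.span ℚ (Set.range fun j => v (t j)))).card) :
    ∀ k : ℕ, k ≤ r → T ^ k ≤ (ftup S v k).card := by
  classical
  intro k
  induction k with
  | zero =>
    intro _
    rw [pow_zero]
    apply Nat.succ_le_of_lt
    rw [Finset.card_pos]
    refine ⟨Fin.elim0, ?_⟩
    unfold ftup
    rw [Finset.mem_filter, Fintype.mem_piFinset]
    exact ⟨fun i => i.elim0, linearIndependent_empty_type⟩
  | succ k ih =>
    intro hk
    have ih' := ih (by omega)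
    have hsub : ((ftup S v k).sigma (fun t => S.filter (fun i => v i ∉
        Submodule.span ℚ (Set.range fun j => v (t j))))).card ≤ (ftup S v (k + 1)).card := by
      apply Finset.card_le_card_of_injOn
        (fun z : (_ : Fin k → ι) × ι => (Fin.cons z.2 z.1 : Fin (k + 1) → ι))
      · rintro ⟨t, n⟩ hz
        rw [Finset.mem_coe, Finset.mem_sigma] at hz
        obtain ⟨ht, hn⟩ := hz
        simp only at ht hn
        unfold ftup at ht
        rw [Finset.mem_filter, Fintype.mem_piFinset] at ht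
        rw [Finset.mem_filter] at hn
        rw [Finset.mem_coe]
        unfold ftup
        rw [Finset.mem_filter, Fintype.mem_piFinset]
        constructor
        · intro i
          refine Fin.cases ?_ (fun j => ?_) i
          · simp only [Fin.cons_zero]; exact hn.1
          · simp only [Fin.cons_succ]; exact ht.1 j
        · have h4 : (fun i => v ((Fin.cons n t : Fin (k + 1) → ι) i))
              = Fin.cons (v n) (fun i => v (t i)) := by
            funext i
            refine Fin.cases ?_ (fun j => ?_) i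
            · simp
            · simp
          simp only
          rw [h4, linearIndependent_finCons]
          exact ⟨ht.2, hn.2⟩
      · rintro ⟨t, n⟩ _ ⟨t', n'⟩ _ h
        simp only at h
        have h5 := Fin.cons_injective2 h
        rw [h5.1, h5.2]
    refine le_trans ?_ hsub
    rw [Finset.card_sigma, pow_succ]
    calc T ^ k * T
        ≤ (ftup S v k).card * T := Nat.mul_le_mul_right _ ih'
      _ = ∑ _t ∈ ftup S v k, T := by rw [Finset.sum_const, smul_eq_mul]
      _ ≤ _ := Finset.sum_le_sum (fun t ht => h k (by omega) t ht)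

/-- outside a small set of primes `q`, all but fewer than `T` of the relations `i ∈ I` which hold
modulo a subgroup of order `≤ J` are controlled by fewer than `r` pivot primes -/
theorem fam_count {ι : Type*} (I : Finset ι) (x y : ι → ℕ) (B E J r T : ℕ) (hr : 1 ≤ r)
    (hJ : J < (E + 1) ^ r)
    (hxy : ∀ i ∈ I, (x i ≠ 0 ∧ y i ≠ 0) ∧ x i ≤ 2 ^ B ∧ y i ≤ 2 ^ B) (hT : 1 ≤ T) :
    ∃ 𝒮 : Finset ℕ, 𝒮.card * T ^ r ≤ I.card ^ r * ((2 * E + 1) ^ r * (r * B * E)) ∧
      ∀ (q : ℕ) [Fact q.Prime], q ∉ 𝒮 → ∀ K : Subgroup (ZMod q)ˣ, Nat.card K ≤ J →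
        ∃ P : Finset ℕ, P.card < r ∧ (∀ p ∈ P, p.Prime) ∧
          ∀ S' : Finset ι, (∀ i ∈ S', i ∈ I ∧ (x i).Coprime q ∧ (y i).Coprime q ∧
            u q (x i) * (u q (y i))⁻¹ ∈ K ∧
            (∀ p ∈ P, (x i).factorization p = (y i).factorization p) ∧ x i ≠ y i) →
            S'.card < T := by
  classical
  set U : Finset (Fin r → ι) := Fintype.piFinset (fun _ : Fin r => I) with hU
  set PP : (Fin r → ι) → Finset ℕ := fun z => primesOf (fun j => x (z j)) (fun j => y (z j)) E
    with hPP
  have hUc : U.card = I.card ^ r := by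
    rw [hU, Fintype.card_piFinset, Finset.prod_const, Finset.card_univ, Fintype.card_fin]
  have hPPc : ∀ z ∈ U, (PP z).card ≤ (2 * E + 1) ^ r * (r * B * E) := by
    intro z hz
    rw [hU, Fintype.mem_piFinset] at hz
    exact card_primesOf_le (fun j => (hxy _ (hz j)).2.1) (fun j => (hxy _ (hz j)).2.2)
  refine ⟨(U.biUnion PP).filter (fun q => T ^ r ≤ (U.filter (fun z => q ∈ PP z)).card), ?_, ?_⟩
  · set 𝒮 := (U.biUnion PP).filter (fun q => T ^ r ≤ (U.filter (fun z => q ∈ PP z)).card)
      with h𝒮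
    calc 𝒮.card * T ^ r = ∑ _q ∈ 𝒮, T ^ r := by rw [Finset.sum_const, smul_eq_mul]
      _ ≤ ∑ q ∈ 𝒮, (U.filter (fun z => q ∈ PP z)).card := by
          apply Finset.sum_le_sum
          intro q hq
          exact (Finset.mem_filter.1 hq).2
      _ = ∑ q ∈ 𝒮, ∑ z ∈ U, (if q ∈ PP z then 1 else 0) := by
          apply Finset.sum_congr rfl
          intro q _
          rw [Finset.card_filter]
      _ = ∑ z ∈ U, ∑ q ∈ 𝒮, (if q ∈ PP z then 1 else 0) := Finset.sum_comm
      _ ≤ ∑ z ∈ U, (PP z).card := by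
          apply Finset.sum_le_sum
          intro z _
          rw [← Finset.card_filter]
          apply Finset.card_le_card
          intro q hq
          exact (Finset.mem_filter.1 hq).2
      _ ≤ ∑ _z ∈ U, (2 * E + 1) ^ r * (r * B * E) := Finset.sum_le_sum hPPc
      _ = _ := by rw [Finset.sum_const, smul_eq_mul, hUc]
  · intro q _ hq K hK
    -- the relations modulo `K`
    set S : Finset ι := I.filter (fun i => (x i).Coprime q ∧ (y i).Coprime q ∧
      u q (x i) * (u q (y i))⁻¹ ∈ K) with hS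
    set v : ι → ℕ → ℚ := fun i => vec (x i) (y i) with hv
    have hex : ∃ k < r, ∃ t ∈ ftup S v k,
        (S.filter (fun i => v i ∉ Submodule.span ℚ (Set.range fun j => v (t j)))).card < T := by
      by_contra hcon
      push Not at hcon
      apply hq
      have h1 := card_ftup_ge S v r T hcon r le_rfl
      have h2 : (ftup S v r).card ≤ (U.filter (fun z => q ∈ PP z)).card := by
        apply Finset.card_le_card
        intro t ht
        unfold ftup at ht
        rw [Finset.mem_filter, Fintype.mem_piFinset] at ht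
        obtain ⟨ht1, ht2⟩ := ht
        have ht' := fun j => Finset.mem_filter.1 (ht1 j)
        rw [Finset.mem_filter, hU, Fintype.mem_piFinset]
        refine ⟨fun j => (ht' j).1, ?_⟩
        rw [hPP]
        exact mem_primesOf (fun j => (hxy _ (ht' j).1).1.1) (fun j => (hxy _ (ht' j).1).1.2)
          (fun j => (ht' j).2.1) (fun j => (ht' j).2.2.1) K (lt_of_le_of_lt hK hJ)
          (fun j => (ht' j).2.2.2) ht2
      have hmany := h1.trans h2
      rw [Finset.mem_filter]
      refine ⟨?_, hmany⟩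
      have hpos : 0 < (U.filter (fun z => q ∈ PP z)).card :=
        lt_of_lt_of_le (pow_pos (by omega) _) hmany
      obtain ⟨z, hz⟩ := Finset.card_pos.1 hpos
      rw [Finset.mem_filter] at hz
      exact Finset.mem_biUnion.2 ⟨z, hz.1, hz.2⟩
    obtain ⟨k, hk, t, ht, hlt⟩ := hex
    set W : Submodule ℚ (ℕ → ℚ) := Submodule.span ℚ (Set.range fun j => v (t j)) with hW
    have : FiniteDimensional ℚ W := FiniteDimensional.span_of_finite ℚ (Set.finite_range _)
    have hWr : Module.finrank ℚ W ≤ r - 1 := by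
      have h2 := finrank_range_le_card (R := ℚ) (fun j => v (t j))
      rw [Fintype.card_fin] at h2
      unfold Set.finrank at h2
      rw [hW]
      omega
    obtain ⟨P, hP1, hP3, hP2⟩ := exists_pivots (r - 1) W hWr
    refine ⟨P, by omega, ?_, ?_⟩
    · intro p hp
      by_contra hnp
      obtain ⟨w, hw, hwp⟩ := hP3 p hp
      apply hwp
      have hle : W ≤ LinearMap.ker (LinearMap.proj p : (ℕ → ℚ) →ₗ[ℚ] ℚ) := by
        rw [hW, Submodule.span_le]
        rintro _ ⟨j, rfl⟩
        rw [SetLike.mem_coe, LinearMap.mem_ker, LinearMap.proj_apply]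
        show vec (x (t j)) (y (t j)) p = 0
        unfold vec
        rw [Nat.factorization_eq_zero_of_not_prime _ hnp,
          Nat.factorization_eq_zero_of_not_prime _ hnp, sub_self]
      have := hle hw
      rw [LinearMap.mem_ker, LinearMap.proj_apply] at this
      exact this
    · intro S' hS'
      refine lt_of_le_of_lt (Finset.card_le_card ?_) hlt
      intro i hi
      obtain ⟨hiI, h1, h2, h3, h4, h5⟩ := hS' i hi
      rw [Finset.mem_filter]
      refine ⟨?_, ?_⟩
      · rw [hS, Finset.mem_filter]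
        exact ⟨hiI, h1, h2, h3⟩
      · intro hmem
        apply h5
        apply vec_eq_zero (hxy i hiI).1.1 (hxy i hiI).1.2
        apply hP2 _ hmem
        intro p hp
        show vec (x i) (y i) p = 0
        unfold vec
        rw [h4 p hp, sub_self]

/-- `fam_count` at the level `k` -/
theorem fam_level (κ : ℝ) (hκ0 : 0 ≤ κ) (hκ1 : κ ≤ 1) (r k : ℕ) (hr : 1 ≤ r)
    {ι : Type*} (I : Finset ι) (x y : ι → ℕ) (B T : ℕ)
    (hxy : ∀ i ∈ I, (x i ≠ 0 ∧ y i ≠ 0) ∧ x i ≤ 2 ^ B ∧ y i ≤ 2 ^ B) (hT : 1 ≤ T) :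
    ∃ 𝒮 : Finset ℕ, (𝒮.card : ℝ) ≤ ((I.card : ℝ) / T) ^ r * (r * B * (4 * 3 ^ r)) *
        ((2 : ℝ) ^ k) ^ (κ * (1 + 1 / r)) ∧
      ∀ (q : ℕ) [Fact q.Prime], q < 2 ^ (k + 1) → q ∉ 𝒮 → ∀ K : Subgroup (ZMod q)ˣ,
        ((Nat.card K : ℕ) : ℝ) ≤ (q : ℝ) ^ κ →
        ∃ P : Finset ℕ, P.card < r ∧ (∀ p ∈ P, p.Prime) ∧
          ∀ S' : Finset ι, (∀ i ∈ S', i ∈ I ∧ (x i).Coprime q ∧ (y i).Coprime q ∧
            u q (x i) * (u q (y i))⁻¹ ∈ K ∧
            (∀ p ∈ P, (x i).factorization p = (y i).factorization p) ∧ x i ≠ y i) →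
            S'.card < T := by
  obtain ⟨𝒮, h1, h2⟩ := fam_count I x y B (Ek κ r k) (Jk κ k) r T hr (Jk_lt κ r k hr) hxy hT
  refine ⟨𝒮, ?_, ?_⟩
  · have hT0 : (0 : ℝ) < (T : ℝ) := by exact_mod_cast hT
    have h3 : (𝒮.card : ℝ) * (T : ℝ) ^ r ≤ (I.card : ℝ) ^ r *
        (((2 * Ek κ r k + 1 : ℕ) : ℝ) ^ r * (r * B * (Ek κ r k : ℝ))) := by exact_mod_cast h1
    have h4 := Ek_bound κ hκ0 hκ1 r k hr
    have h5 : (𝒮.card : ℝ) ≤ (I.card : ℝ) ^ r *
        (((2 * Ek κ r k + 1 : ℕ) : ℝ) ^ r * (r * B * (Ek κ r k : ℝ))) / (T : ℝ) ^ r := by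
      rw [le_div_iff₀ (by positivity)]
      exact h3
    refine h5.trans ?_
    calc (I.card : ℝ) ^ r * (((2 * Ek κ r k + 1 : ℕ) : ℝ) ^ r * (r * B * (Ek κ r k : ℝ)))
          / (T : ℝ) ^ r
        = ((I.card : ℝ) / T) ^ r * (r * B) *
            (((2 * Ek κ r k + 1 : ℕ) : ℝ) ^ r * (Ek κ r k : ℝ)) := by
          rw [div_pow]; ring
      _ ≤ ((I.card : ℝ) / T) ^ r * (r * B) *
            (4 * 3 ^ r * ((2 : ℝ) ^ k) ^ (κ * (1 + 1 / r))) := by
          gcongr
      _ = _ := by ring
  · intro q _ hqk hq K hK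
    exact h2 q hq K (card_le_Jk hκ0 hqk hK)

end Pool.Agent.H.MP_3e6494_nt.h26t
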