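import Mathlib
import Pool.Agent.H.MP_3e6494_nt.h26t.Fam

/-!
Weighted versions of the counting of exceptional primes: families of relations modulo a small
subgroup, and collisions modulo `q`.
-/

open Finset

set_option linter.unusedSectionVars false
set_option linter.unusedVariables false

namespace Pool.Agent.H.MP_3e6494_nt.h26t

open Pool.Agent.H.MP_3e6494_nt.T3Prime Pool.Agent.H.MP_3e6494_nt.T3Exc
  Pool.Agent.H.MP_3e6494_nt.T3Cnt

open scoped Classical in
/-- weighted greedy extension: if the members of the family outside every small subspace spanned by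
the family have weight at least `T`, the independent `k`-tuples have weight at least `T ^ k` -/
theorem weight_ftup_ge {ι : Type*} (S : Finset ι) (v : ι → ℕ → ℚ) (ω : ι → ℝ)
    (hω : ∀ i ∈ S, 0 ≤ ω i) (r : ℕ) (T : ℝ) (hT : 0 ≤ T)
    (h : ∀ k < r, ∀ t ∈ ftup S v k,
      T ≤ ∑ i ∈ S.filter (fun i => v i ∉ Submodule.span ℚ (Set.range fun j => v (t j))), ω i) :
    ∀ k : ℕ, k ≤ r → T ^ k ≤ ∑ t ∈ ftup S v k, ∏ j, ω (t j) := by
  classical
  intro k
  induction k with
  | zero =>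
    intro _
    rw [pow_zero]
    have hmem : (Fin.elim0 : Fin 0 → ι) ∈ ftup S v 0 := by
      unfold ftup
      rw [Finset.mem_filter, Fintype.mem_piFinset]
      exact ⟨fun i => i.elim0, linearIndependent_empty_type⟩
    calc (1 : ℝ) = ∑ t ∈ ({Fin.elim0} : Finset (Fin 0 → ι)), ∏ j, ω (t j) := by simp
      _ ≤ _ := by
        apply Finset.sum_le_sum_of_subset_of_nonneg
        · rw [Finset.singleton_subset_iff]; exact hmem
        · intro t _ _
          simp
  | succ k ih =>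
    intro hk
    have ih' := ih (by omega)
    have hnn : ∀ m : ℕ, ∀ t ∈ ftup S v m, 0 ≤ ∏ j, ω (t j) := by
      intro m t ht
      unfold ftup at ht
      rw [Finset.mem_filter, Fintype.mem_piFinset] at ht
      exact Finset.prod_nonneg fun j _ => hω _ (ht.1 j)
    set Z : Finset ((_ : Fin k → ι) × ι) := (ftup S v k).sigma (fun t => S.filter (fun i => v i ∉
        Submodule.span ℚ (Set.range fun j => v (t j)))) with hZ
    have hinj : Set.InjOn (fun z : (_ : Fin k → ι) × ι => (Fin.cons z.2 z.1 : Fin (k + 1) → ι))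
        (Z : Set ((_ : Fin k → ι) × ι)) := by
      rintro ⟨t, n⟩ _ ⟨t', n'⟩ _ h
      simp only at h
      have h5 := Fin.cons_injective2 h
      rw [h5.1, h5.2]
    have hsub : Z.image (fun z : (_ : Fin k → ι) × ι => (Fin.cons z.2 z.1 : Fin (k + 1) → ι)) ⊆
        ftup S v (k + 1) := by
      intro w hw
      rw [Finset.mem_image] at hw
      obtain ⟨⟨t, n⟩, hz, rfl⟩ := hw
      rw [hZ, Finset.mem_sigma] at hz
      obtain ⟨ht, hn⟩ := hz
      simp only at ht hn
      unfold ftup at ht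
      rw [Finset.mem_filter, Fintype.mem_piFinset] at ht
      rw [Finset.mem_filter] at hn
      unfold ftup
      rw [Finset.mem_filter, Fintype.mem_piFinset]
      constructor
      · intro i
        refine Fin.cases ?_ (fun j => ?_) i
        · simp only [Fin.cons_zero]; exact hn.1
        · simp only [Fin.cons_succ]; exact ht.1 j
      · have h4 : (fun i => v ((Fin.cons n t : Fin (k + 1) → ι) i))
            = Fin.cons (v n) (fun i => v (t i)) := by
          funext i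
          refine Fin.cases ?_ (fun j => ?_) i
          · simp
          · simp
        simp only
        rw [h4, linearIndependent_finCons]
        exact ⟨ht.2, hn.2⟩
    calc T ^ (k + 1) = T ^ k * T := pow_succ _ _
      _ ≤ (∑ t ∈ ftup S v k, ∏ j, ω (t j)) * T := mul_le_mul_of_nonneg_right ih' hT
      _ = ∑ t ∈ ftup S v k, (∏ j, ω (t j)) * T := by rw [Finset.sum_mul]
      _ ≤ ∑ t ∈ ftup S v k, (∏ j, ω (t j)) *
            ∑ i ∈ S.filter (fun i => v i ∉ Submodule.span ℚ (Set.range fun j => v (t j))), ω i := by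
          apply Finset.sum_le_sum
          intro t ht
          exact mul_le_mul_of_nonneg_left (h k (by omega) t ht) (hnn k t ht)
      _ = ∑ z ∈ Z, ∏ j, ω ((Fin.cons z.2 z.1 : Fin (k + 1) → ι) j) := by
          rw [hZ, Finset.sum_sigma]
          apply Finset.sum_congr rfl
          intro t _
          rw [Finset.mul_sum]
          apply Finset.sum_congr rfl
          intro i _
          rw [Fin.prod_univ_succ]
          simp only [Fin.cons_zero, Fin.cons_succ]
          ring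
      _ = ∑ w ∈ Z.image (fun z : (_ : Fin k → ι) × ι => (Fin.cons z.2 z.1 : Fin (k + 1) → ι)),
            ∏ j, ω (w j) := by
          rw [Finset.sum_image hinj]
      _ ≤ ∑ t ∈ ftup S v (k + 1), ∏ j, ω (t j) := by
          apply Finset.sum_le_sum_of_subset_of_nonneg hsub
          intro t ht _
          exact hnn _ t ht

/-- outside a small set of primes `q`, the relations `i ∈ I` which hold modulo a subgroup of order
`≤ J` and are not controlled by fewer than `r` pivot primes have weight less than `T` -/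
theorem famw_count {ι : Type*} (I : Finset ι) (x y : ι → ℕ) (ω : ι → ℝ) (B E J r : ℕ) (hr : 1 ≤ r)
    (hJ : J < (E + 1) ^ r) (hω : ∀ i ∈ I, 0 ≤ ω i)
    (hxy : ∀ i ∈ I, (x i ≠ 0 ∧ y i ≠ 0) ∧ x i ≤ 2 ^ B ∧ y i ≤ 2 ^ B) (T : ℝ) (hT : 0 < T) :
    ∃ 𝒮 : Finset ℕ, (𝒮.card : ℝ) * T ^ r ≤
        (∑ i ∈ I, ω i) ^ r * (((2 * E + 1) ^ r * (r * B * E) : ℕ) : ℝ) ∧
      ∀ (q : ℕ) [Fact q.Prime], q ∉ 𝒮 → ∀ K : Subgroup (ZMod q)ˣ, Nat.card K ≤ J →
        ∃ P : Finset ℕ, P.card < r ∧ (∀ p ∈ P, p.Prime) ∧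
          ∀ S' : Finset ι, (∀ i ∈ S', i ∈ I ∧ (x i).Coprime q ∧ (y i).Coprime q ∧
            u q (x i) * (u q (y i))⁻¹ ∈ K ∧
            (∀ p ∈ P, (x i).factorization p = (y i).factorization p) ∧ x i ≠ y i) →
            ∑ i ∈ S', ω i < T := by
  classical
  set U : Finset (Fin r → ι) := Fintype.piFinset (fun _ : Fin r => I) with hU
  set PP : (Fin r → ι) → Finset ℕ := fun z => primesOf (fun j => x (z j)) (fun j => y (z j)) E
    with hPP
  have hUnn : ∀ z ∈ U, 0 ≤ ∏ j, ω (z j) := by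
    intro z hz
    rw [hU, Fintype.mem_piFinset] at hz
    exact Finset.prod_nonneg fun j _ => hω _ (hz j)
  have hUc : ∑ z ∈ U, ∏ j, ω (z j) = (∑ i ∈ I, ω i) ^ r := by
    rw [hU, ← Finset.prod_univ_sum (fun _ : Fin r => I) (fun _ i => ω i)]
    rw [Finset.prod_const, Finset.card_univ, Fintype.card_fin]
  have hPPc : ∀ z ∈ U, (PP z).card ≤ (2 * E + 1) ^ r * (r * B * E) := by
    intro z hz
    rw [hU, Fintype.mem_piFinset] at hz
    exact card_primesOf_le (fun j => (hxy _ (hz j)).2.1) (fun j => (hxy _ (hz j)).2.2)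
  refine ⟨(U.biUnion PP).filter
    (fun q => T ^ r ≤ ∑ z ∈ U.filter (fun z => q ∈ PP z), ∏ j, ω (z j)), ?_, ?_⟩
  · set 𝒮 := (U.biUnion PP).filter
      (fun q => T ^ r ≤ ∑ z ∈ U.filter (fun z => q ∈ PP z), ∏ j, ω (z j)) with h𝒮
    calc (𝒮.card : ℝ) * T ^ r = ∑ _q ∈ 𝒮, T ^ r := by rw [Finset.sum_const, nsmul_eq_mul]
      _ ≤ ∑ q ∈ 𝒮, ∑ z ∈ U.filter (fun z => q ∈ PP z), ∏ j, ω (z j) := by
          apply Finset.sum_le_sum
          intro q hq
          exact (Finset.mem_filter.1 hq).2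
      _ = ∑ q ∈ 𝒮, ∑ z ∈ U, (if q ∈ PP z then ∏ j, ω (z j) else 0) := by
          apply Finset.sum_congr rfl
          intro q _
          rw [Finset.sum_filter]
      _ = ∑ z ∈ U, ∑ q ∈ 𝒮, (if q ∈ PP z then ∏ j, ω (z j) else 0) := Finset.sum_comm
      _ ≤ ∑ z ∈ U, (∏ j, ω (z j)) * (((2 * E + 1) ^ r * (r * B * E) : ℕ) : ℝ) := by
          apply Finset.sum_le_sum
          intro z hz
          rw [← Finset.sum_filter, Finset.sum_const, nsmul_eq_mul, mul_comm]
          apply mul_le_mul_of_nonneg_left _ (hUnn z hz)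
          have h1 : (𝒮.filter (fun q => q ∈ PP z)).card ≤ (PP z).card := by
            apply Finset.card_le_card
            intro q hq
            exact (Finset.mem_filter.1 hq).2
          exact_mod_cast h1.trans (hPPc z hz)
      _ = _ := by rw [← Finset.sum_mul, hUc]
  · intro q _ hq K hK
    -- the relations modulo `K`
    set S : Finset ι := I.filter (fun i => (x i).Coprime q ∧ (y i).Coprime q ∧
      u q (x i) * (u q (y i))⁻¹ ∈ K) with hS
    set v : ι → ℕ → ℚ := fun i => vec (x i) (y i) with hv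
    have hSω : ∀ i ∈ S, 0 ≤ ω i := fun i hi => hω i (Finset.mem_filter.1 hi).1
    have hex : ∃ k < r, ∃ t ∈ ftup S v k,
        ∑ i ∈ S.filter (fun i => v i ∉ Submodule.span ℚ (Set.range fun j => v (t j))), ω i < T := by
      by_contra hcon
      push Not at hcon
      apply hq
      have h1 := weight_ftup_ge S v ω hSω r T hT.le hcon r le_rfl
      have h2 : ∑ t ∈ ftup S v r, ∏ j, ω (t j) ≤
          ∑ z ∈ U.filter (fun z => q ∈ PP z), ∏ j, ω (z j) := by
        apply Finset.sum_le_sum_of_subset_of_nonneg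
        · intro t ht
          unfold ftup at ht
          rw [Finset.mem_filter, Fintype.mem_piFinset] at ht
          obtain ⟨ht1, ht2⟩ := ht
          have ht' := fun j => Finset.mem_filter.1 (ht1 j)
          rw [Finset.mem_filter, hU, Fintype.mem_piFinset]
          refine ⟨fun j => (ht' j).1, ?_⟩
          rw [hPP]
          exact mem_primesOf (fun j => (hxy _ (ht' j).1).1.1) (fun j => (hxy _ (ht' j).1).1.2)
            (fun j => (ht' j).2.1) (fun j => (ht' j).2.2.1) K (lt_of_le_of_lt hK hJ)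
            (fun j => (ht' j).2.2.2) ht2
        · intro t ht _
          exact hUnn t (Finset.mem_filter.1 ht).1
      have hmany := h1.trans h2
      rw [Finset.mem_filter]
      refine ⟨?_, hmany⟩
      have hpos : 0 < ∑ z ∈ U.filter (fun z => q ∈ PP z), ∏ j, ω (z j) :=
        lt_of_lt_of_le (pow_pos hT _) hmany
      obtain ⟨z, hz, -⟩ := Finset.exists_ne_zero_of_sum_ne_zero hpos.ne'
      rw [Finset.mem_filter] at hz
      exact Finset.mem_biUnion.2 ⟨z, hz.1, hz.2⟩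
    obtain ⟨k, hk, t, ht, hlt⟩ := hex
    set W : Submodule ℚ (ℕ → ℚ) := Submodule.span ℚ (Set.range fun j => v (t j)) with hW
    have : FiniteDimensional ℚ W := FiniteDimensional.span_of_finite ℚ (Set.finite_range _)
    have hWr : Module.finrank ℚ W ≤ r - 1 := by
      have h2 := finrank_range_le_card (R := ℚ) (fun j => v (t j))
      rw [Fintype.card_fin] at h2
      unfold Set.finrank at h2
      rw [hW]
      omega
    obtain ⟨P, hP1, hP3, hP2⟩ := exists_pivots (r - 1) W hWr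
    refine ⟨P, by omega, ?_, ?_⟩
    · intro p hp
      by_contra hnp
      obtain ⟨w, hw, hwp⟩ := hP3 p hp
      apply hwp
      have hle : W ≤ LinearMap.ker (LinearMap.proj p : (ℕ → ℚ) →ₗ[ℚ] ℚ) := by
        rw [hW, Submodule.span_le]
        rintro _ ⟨j, rfl⟩
        rw [SetLike.mem_coe, LinearMap.mem_ker, LinearMap.proj_apply]
        show vec (x (t j)) (y (t j)) p = 0
        unfold vec
        rw [Nat.factorization_eq_zero_of_not_prime _ hnp,
          Nat.factorization_eq_zero_of_not_prime _ hnp, sub_self]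
      have := hle hw
      rw [LinearMap.mem_ker, LinearMap.proj_apply] at this
      exact this
    · intro S' hS'
      refine lt_of_le_of_lt (Finset.sum_le_sum_of_subset_of_nonneg ?_ ?_) hlt
      · intro i hi
        obtain ⟨hiI, h1, h2, h3, h4, h5⟩ := hS' i hi
        rw [Finset.mem_filter]
        refine ⟨?_, ?_⟩
        · rw [hS, Finset.mem_filter]
          exact ⟨hiI, h1, h2, h3⟩
        · intro hmem
          apply h5
          apply vec_eq_zero (hxy i hiI).1.1 (hxy i hiI).1.2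
          apply hP2 _ hmem
          intro p hp
          show vec (x i) (y i) p = 0
          unfold vec
          rw [h4 p hp, sub_self]
      · intro i hi _
        exact hSω i (Finset.mem_filter.1 hi).1

/-- `famw_count` at the level `k` -/
theorem famw_level (κ : ℝ) (hκ0 : 0 ≤ κ) (hκ1 : κ ≤ 1) (r k : ℕ) (hr : 1 ≤ r)
    {ι : Type*} (I : Finset ι) (x y : ι → ℕ) (ω : ι → ℝ) (B : ℕ) (hω : ∀ i ∈ I, 0 ≤ ω i)
    (hxy : ∀ i ∈ I, (x i ≠ 0 ∧ y i ≠ 0) ∧ x i ≤ 2 ^ B ∧ y i ≤ 2 ^ B) (T : ℝ) (hT : 0 < T) :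
    ∃ 𝒮 : Finset ℕ, (𝒮.card : ℝ) ≤ ((∑ i ∈ I, ω i) / T) ^ r * (r * B * (4 * 3 ^ r)) *
        ((2 : ℝ) ^ k) ^ (κ * (1 + 1 / r)) ∧
      ∀ (q : ℕ) [Fact q.Prime], q < 2 ^ (k + 1) → q ∉ 𝒮 → ∀ K : Subgroup (ZMod q)ˣ,
        ((Nat.card K : ℕ) : ℝ) ≤ (q : ℝ) ^ κ →
        ∃ P : Finset ℕ, P.card < r ∧ (∀ p ∈ P, p.Prime) ∧
          ∀ S' : Finset ι, (∀ i ∈ S', i ∈ I ∧ (x i).Coprime q ∧ (y i).Coprime q ∧
            u q (x i) * (u q (y i))⁻¹ ∈ K ∧
            (∀ p ∈ P, (x i).factorization p = (y i).factorization p) ∧ x i ≠ y i) →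
            ∑ i ∈ S', ω i < T := by
  obtain ⟨𝒮, h1, h2⟩ := famw_count I x y ω B (Ek κ r k) (Jk κ k) r hr (Jk_lt κ r k hr) hω hxy T hT
  refine ⟨𝒮, ?_, ?_⟩
  · have hI : 0 ≤ ∑ i ∈ I, ω i := Finset.sum_nonneg hω
    have h3 : (𝒮.card : ℝ) * T ^ r ≤ (∑ i ∈ I, ω i) ^ r *
        (((2 * Ek κ r k + 1 : ℕ) : ℝ) ^ r * (r * B * (Ek κ r k : ℝ))) := by
      refine h1.trans (le_of_eq ?_)
      push_cast
      ring
    have h4 := Ek_bound κ hκ0 hκ1 r k hr
    have h5 : (𝒮.card : ℝ) ≤ (∑ i ∈ I, ω i) ^ r *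
        (((2 * Ek κ r k + 1 : ℕ) : ℝ) ^ r * (r * B * (Ek κ r k : ℝ))) / T ^ r := by
      rw [le_div_iff₀ (by positivity)]
      exact h3
    refine h5.trans ?_
    calc (∑ i ∈ I, ω i) ^ r * (((2 * Ek κ r k + 1 : ℕ) : ℝ) ^ r * (r * B * (Ek κ r k : ℝ)))
          / T ^ r
        = ((∑ i ∈ I, ω i) / T) ^ r * (r * B) *
            (((2 * Ek κ r k + 1 : ℕ) : ℝ) ^ r * (Ek κ r k : ℝ)) := by
          rw [div_pow]; ring
      _ ≤ ((∑ i ∈ I, ω i) / T) ^ r * (r * B) *
            (4 * 3 ^ r * ((2 : ℝ) ^ k) ^ (κ * (1 + 1 / r))) := by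
          gcongr
      _ = _ := by ring
  · intro q _ hqk hq K hK
    exact h2 q hq K (card_le_Jk hκ0 hqk hK)

/-- weighted double counting of prime divisors -/
theorem coll_gen {β : Type*} (U : Finset β) (N : β → ℕ) (ω : β → ℝ) (L : ℕ)
    (hω : ∀ z ∈ U, 0 ≤ ω z) (hN : ∀ z ∈ U, N z ≤ 2 ^ L) (T : ℝ) (hT : 0 < T) :
    ∃ 𝒮 : Finset ℕ, (𝒮.card : ℝ) ≤ (∑ z ∈ U, ω z) / T * L ∧
      ∀ q : ℕ, q.Prime → q ∉ 𝒮 → ∀ S' : Finset β,
        (∀ z ∈ S', z ∈ U ∧ N z ≠ 0 ∧ q ∣ N z) → ∑ z ∈ S', ω z < T := by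
  classical
  refine ⟨(U.biUnion fun z => (N z).primeFactors).filter
    (fun q => T ≤ ∑ z ∈ U.filter (fun z => q ∈ (N z).primeFactors), ω z), ?_, ?_⟩
  · set 𝒮 := (U.biUnion fun z => (N z).primeFactors).filter
      (fun q => T ≤ ∑ z ∈ U.filter (fun z => q ∈ (N z).primeFactors), ω z) with h𝒮
    have hmain : (𝒮.card : ℝ) * T ≤ (∑ z ∈ U, ω z) * L := by
      calc (𝒮.card : ℝ) * T = ∑ _q ∈ 𝒮, T := by rw [Finset.sum_const, nsmul_eq_mul]
        _ ≤ ∑ q ∈ 𝒮, ∑ z ∈ U.filter (fun z => q ∈ (N z).primeFactors), ω z := by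
            apply Finset.sum_le_sum
            intro q hq
            exact (Finset.mem_filter.1 hq).2
        _ = ∑ q ∈ 𝒮, ∑ z ∈ U, (if q ∈ (N z).primeFactors then ω z else 0) := by
            apply Finset.sum_congr rfl
            intro q _
            rw [Finset.sum_filter]
        _ = ∑ z ∈ U, ∑ q ∈ 𝒮, (if q ∈ (N z).primeFactors then ω z else 0) := Finset.sum_comm
        _ ≤ ∑ z ∈ U, ω z * L := by
            apply Finset.sum_le_sum
            intro z hz
            rw [← Finset.sum_filter, Finset.sum_const, nsmul_eq_mul, mul_comm]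
            apply mul_le_mul_of_nonneg_left _ (hω z hz)
            have h1 : (𝒮.filter (fun q => q ∈ (N z).primeFactors)).card ≤
                (N z).primeFactors.card := by
              apply Finset.card_le_card
              intro q hq
              exact (Finset.mem_filter.1 hq).2
            by_cases h0 : N z = 0
            · have h0' : (N z).primeFactors.card = 0 := by
                rw [h0, Nat.primeFactors_zero, Finset.card_empty]
              have h2 : (𝒮.filter (fun q => q ∈ (N z).primeFactors)).card ≤ L := by omega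
              exact_mod_cast h2
            · exact_mod_cast h1.trans (card_primeFactors_le h0 (hN z hz))
        _ = _ := by rw [← Finset.sum_mul]
    rw [div_mul_eq_mul_div, le_div_iff₀ hT]
    exact hmain
  · intro q hqp hq S' hS'
    by_contra hcon
    push Not at hcon
    apply hq
    have h1 : ∑ z ∈ S', ω z ≤ ∑ z ∈ U.filter (fun z => q ∈ (N z).primeFactors), ω z := by
      apply Finset.sum_le_sum_of_subset_of_nonneg
      · intro z hz
        obtain ⟨h2, h3, h4⟩ := hS' z hz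
        rw [Finset.mem_filter, Nat.mem_primeFactors]
        exact ⟨h2, hqp, h4, h3⟩
      · intro z hz _
        exact hω z (Finset.mem_filter.1 hz).1
    have h2 := hcon.trans h1
    rw [Finset.mem_filter]
    refine ⟨?_, h2⟩
    obtain ⟨z, hz, -⟩ := Finset.exists_ne_zero_of_sum_ne_zero (lt_of_lt_of_le hT h2).ne'
    rw [Finset.mem_filter] at hz
    exact Finset.mem_biUnion.2 ⟨z, hz.1, hz.2⟩

lemma sum_prod_sq {ι : Type*} (I : Finset ι) (w : ι → ℝ) :
    ∑ z ∈ I ×ˢ I, w z.1 * w z.2 = (∑ i ∈ I, w i) ^ 2 := by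
  rw [Finset.sum_product, sq, Finset.sum_mul_sum]

/-- collisions of the fractions `x i / y i` modulo `q` -/
theorem coll_level {ι : Type*} (I : Finset ι) (x y : ι → ℕ) (w : ι → ℝ) (B : ℕ)
    (hw : ∀ i ∈ I, 0 ≤ w i)
    (hxy : ∀ i ∈ I, (x i ≠ 0 ∧ y i ≠ 0) ∧ x i ≤ 2 ^ B ∧ y i ≤ 2 ^ B) (T : ℝ) (hT : 0 < T) :
    ∃ 𝒮 : Finset ℕ, (𝒮.card : ℝ) ≤ (∑ i ∈ I, w i) ^ 2 / T * (2 * B + 1) ∧
      ∀ q : ℕ, q.Prime → q ∉ 𝒮 → ∀ S' : Finset (ι × ι),
        (∀ z ∈ S', z.1 ∈ I ∧ z.2 ∈ I ∧ x z.1 * y z.2 ≠ x z.2 * y z.1 ∧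
          ((x z.1 * y z.2 : ℕ) : ZMod q) = ((x z.2 * y z.1 : ℕ) : ZMod q)) →
        ∑ z ∈ S', w z.1 * w z.2 < T := by
  classical
  obtain ⟨𝒮, h1, h2⟩ := coll_gen (I ×ˢ I)
    (fun z => (x z.1 * y z.2 - x z.2 * y z.1) + (x z.2 * y z.1 - x z.1 * y z.2))
    (fun z => w z.1 * w z.2) (2 * B + 1)
    (fun z hz => mul_nonneg (hw _ (Finset.mem_product.1 hz).1) (hw _ (Finset.mem_product.1 hz).2))
    (by
      intro z hz
      rw [Finset.mem_product] at hz
      have h3 : ∀ i ∈ I, ∀ j ∈ I, x i * y j ≤ 2 ^ (2 * B) := by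
        intro i hi j hj
        calc x i * y j ≤ 2 ^ B * 2 ^ B := Nat.mul_le_mul (hxy i hi).2.1 (hxy j hj).2.2
          _ = 2 ^ (2 * B) := by rw [← pow_add]; congr 1; ring
      have h4 := h3 _ hz.1 _ hz.2
      have h5 := h3 _ hz.2 _ hz.1
      have h6 : 2 ^ (2 * B + 1) = 2 * 2 ^ (2 * B) := by rw [pow_succ]; ring
      omega) T hT
  refine ⟨𝒮, ?_, ?_⟩
  · rw [sum_prod_sq] at h1
    push_cast at h1
    exact h1
  · intro q hq hqS S' hS'
    apply h2 q hq hqS S'
    intro z hz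
    obtain ⟨h3, h4, h5, h6⟩ := hS' z hz
    refine ⟨Finset.mem_product.2 ⟨h3, h4⟩, by omega, ?_⟩
    rw [ZMod.natCast_eq_natCast_iff] at h6
    rcases le_total (x z.1 * y z.2) (x z.2 * y z.1) with h | h
    · rw [Nat.sub_eq_zero_of_le h, zero_add]
      exact (Nat.modEq_iff_dvd' h).1 h6
    · rw [Nat.sub_eq_zero_of_le h, add_zero]
      exact (Nat.modEq_iff_dvd' h).1 h6.symm

/-- collisions of `x i / y i` with `- x j / y j` modulo `q` -/
theorem coll_level_add {ι : Type*} (I : Finset ι) (x y : ι → ℕ) (w : ι → ℝ) (B : ℕ)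
    (hw : ∀ i ∈ I, 0 ≤ w i)
    (hxy : ∀ i ∈ I, (x i ≠ 0 ∧ y i ≠ 0) ∧ x i ≤ 2 ^ B ∧ y i ≤ 2 ^ B) (T : ℝ) (hT : 0 < T) :
    ∃ 𝒮 : Finset ℕ, (𝒮.card : ℝ) ≤ (∑ i ∈ I, w i) ^ 2 / T * (2 * B + 1) ∧
      ∀ q : ℕ, q.Prime → q ∉ 𝒮 → ∀ S' : Finset (ι × ι),
        (∀ z ∈ S', z.1 ∈ I ∧ z.2 ∈ I ∧
          ((x z.1 * y z.2 + x z.2 * y z.1 : ℕ) : ZMod q) = 0) →
        ∑ z ∈ S', w z.1 * w z.2 < T := by
  classical
  obtain ⟨𝒮, h1, h2⟩ := coll_gen (I ×ˢ I)
    (fun z => x z.1 * y z.2 + x z.2 * y z.1)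
    (fun z => w z.1 * w z.2) (2 * B + 1)
    (fun z hz => mul_nonneg (hw _ (Finset.mem_product.1 hz).1) (hw _ (Finset.mem_product.1 hz).2))
    (by
      intro z hz
      rw [Finset.mem_product] at hz
      have h3 : ∀ i ∈ I, ∀ j ∈ I, x i * y j ≤ 2 ^ (2 * B) := by
        intro i hi j hj
        calc x i * y j ≤ 2 ^ B * 2 ^ B := Nat.mul_le_mul (hxy i hi).2.1 (hxy j hj).2.2
          _ = 2 ^ (2 * B) := by rw [← pow_add]; congr 1; ring
      have h4 := h3 _ hz.1 _ hz.2
      have h5 := h3 _ hz.2 _ hz.1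
      have h6 : 2 ^ (2 * B + 1) = 2 * 2 ^ (2 * B) := by rw [pow_succ]; ring
      omega) T hT
  refine ⟨𝒮, ?_, ?_⟩
  · rw [sum_prod_sq] at h1
    push_cast at h1
    exact h1
  · intro q hq hqS S' hS'
    apply h2 q hq hqS S'
    intro z hz
    obtain ⟨h3, h4, h6⟩ := hS' z hz
    have h7 : x z.1 * y z.2 ≠ 0 := mul_ne_zero (hxy _ h3).1.1 (hxy _ h4).1.2
    refine ⟨Finset.mem_product.2 ⟨h3, h4⟩, by omega, ?_⟩
    exact (ZMod.natCast_eq_zero_iff _ _).1 h6

end Pool.Agent.H.MP_3e6494_nt.h26t
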