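import Mathlib
import Pool.Agent.H.MP_3e6494_nt.helper50.PV

/-!
Nonzero residues as signs times small integers.
-/

open Finset

set_option linter.unusedSectionVars false
set_option linter.unusedVariables false

namespace Pool.Agent.H.MP_3e6494_nt.h26t

variable {q : ℕ} [hq : Fact q.Prime]

/-- the absolute value of a residue -/
def mu (q : ℕ) (m : ZMod q) : ℕ := min m.val (q - m.val)

lemma val_pos {m : ZMod q} (hm : m ≠ 0) : 0 < m.val := by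
  rcases Nat.eq_zero_or_pos m.val with h | h
  · exact absurd ((ZMod.val_eq_zero m).1 h) hm
  · exact h

lemma mu_mem (hq3 : 3 ≤ q) {m : ZMod q} (hm : m ≠ 0) : mu q m ∈ Finset.Icc 1 ((q - 1) / 2) := by
  have h1 := val_pos hm
  have h2 := ZMod.val_lt m
  have hodd : q % 2 = 1 := by
    rcases hq.out.eq_two_or_odd with h | h
    · omega
    · exact h
  unfold mu
  rw [Finset.mem_Icc]
  omega

lemma mu_cast (m : ZMod q) (h : m.val ≤ q - m.val) : ((mu q m : ℕ) : ZMod q) = m := by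
  unfold mu
  rw [min_eq_left h]
  exact ZMod.natCast_zmod_val m

lemma mu_cast' (m : ZMod q) (h : ¬ m.val ≤ q - m.val) : ((mu q m : ℕ) : ZMod q) = -m := by
  unfold mu
  rw [min_eq_right (not_le.1 h).le, Nat.cast_sub (ZMod.val_lt m).le]
  simp

theorem mu_or (m : ZMod q) : m = ((mu q m : ℕ) : ZMod q) ∨ m = -((mu q m : ℕ) : ZMod q) := by
  by_cases h : m.val ≤ q - m.val
  · exact Or.inl (mu_cast m h).symm
  · right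
    rw [mu_cast' m h, neg_neg]

/-- the sum over the nonzero residues, folded -/
theorem sum_fold (hq3 : 3 ≤ q) (g : ZMod q → ℝ) :
    ∑ m ∈ (Finset.univ.erase 0 : Finset (ZMod q)), g m =
      ∑ μ ∈ Finset.Icc 1 ((q - 1) / 2), (g ((μ : ℕ) : ZMod q) + g (-((μ : ℕ) : ZMod q))) := by
  have hodd : q % 2 = 1 := by
    rcases hq.out.eq_two_or_odd with h | h
    · omega
    · exact h
  have e1 : (Finset.univ.erase 0 : Finset (ZMod q)) =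
      (Finset.univ : Finset (ZMod q)).filter (fun a => a ≠ 0) := by
    ext m; simp
  rw [e1, PV.sum_zmod_eq, Finset.sum_add_distrib]
  have e2 : Finset.Ico 1 q = Finset.Icc 1 ((q - 1) / 2) ∪ Finset.Icc ((q - 1) / 2 + 1) (q - 1) := by
    ext i
    simp only [Finset.mem_union, Finset.mem_Icc, Finset.mem_Ico]
    omega
  rw [e2, Finset.sum_union]
  · congr 1
    refine Finset.sum_nbij' (fun i => q - i) (fun i => q - i) ?_ ?_ ?_ ?_ ?_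
    · intro i hi; rw [Finset.mem_Icc] at *; omega
    · intro i hi; rw [Finset.mem_Icc] at *; omega
    · intro i hi; rw [Finset.mem_Icc] at *; omega
    · intro i hi; rw [Finset.mem_Icc] at *; omega
    · intro i hi
      rw [Finset.mem_Icc] at hi
      congr 1
      rw [Nat.cast_sub (by omega : i ≤ q)]
      simp
  · rw [Finset.disjoint_left]
    intro i h1 h2
    rw [Finset.mem_Icc] at h1 h2
    omega

section dual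

variable {α : Type*} [DecidableEq α]

/-- the index of a term of the dual sum -/
def tri (q : ℕ) (i : ZMod q × α × α) : ℕ × α × α := (mu q i.1, i.2.2, i.2.1)

/-- the weight of a term of the dual sum -/
def wd (q : ℕ) (c : ℕ → ℝ) (f : α → ℝ) (i : ZMod q × α × α) : ℝ :=
  c (mu q i.1) * (f i.2.1 * f i.2.2)

lemma class_bound (hq3 : 3 ≤ q) (S T : Finset α) (ρ : α → (ZMod q)ˣ) (f : α → ℝ) (c : ℕ → ℝ)
    {T₀ : ℝ} {s s' e : ZMod q} (hs : s * s = 1) (hs' : s' * s' = 1) (he : s = s' * e)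
    (h : ∀ 𝒥 : Finset ((ℕ × α × α) × (ℕ × α × α)), (∀ z ∈ 𝒥,
      (z.1.1 ∈ Finset.Icc 1 ((q - 1) / 2) ∧ z.2.1 ∈ Finset.Icc 1 ((q - 1) / 2)) ∧
      (z.1.2.1 ∈ T ∧ z.1.2.2 ∈ S ∧ z.2.2.1 ∈ T ∧ z.2.2.2 ∈ S) ∧
      ((z.1.1 : ZMod q) * ((ρ z.1.2.1 * (ρ z.1.2.2)⁻¹ : (ZMod q)ˣ) : ZMod q) =
        e * ((z.2.1 : ZMod q) * ((ρ z.2.2.1 * (ρ z.2.2.2)⁻¹ : (ZMod q)ˣ) : ZMod q)))) →
      ∑ z ∈ 𝒥, (c z.1.1 * (f z.1.2.1 * f z.1.2.2)) * (c z.2.1 * (f z.2.2.1 * f z.2.2.2)) ≤ T₀)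
    (P : Finset ((ZMod q × α × α) × (ZMod q × α × α)))
    (hP : ∀ z ∈ P, (z.1.1 ≠ 0 ∧ z.2.1 ≠ 0) ∧ (z.1.2.1 ∈ S ∧ z.1.2.2 ∈ T ∧ z.2.2.1 ∈ S ∧ z.2.2.2 ∈ T) ∧
      (((mu q z.1.1 : ℕ) : ZMod q) = s * z.1.1 ∧ ((mu q z.2.1 : ℕ) : ZMod q) = s' * z.2.1) ∧
      (z.1.1 * (((ρ z.1.2.1 * (ρ z.1.2.2)⁻¹)⁻¹ : (ZMod q)ˣ) : ZMod q) =
        z.2.1 * (((ρ z.2.2.1 * (ρ z.2.2.2)⁻¹)⁻¹ : (ZMod q)ˣ) : ZMod q))) :
    ∑ z ∈ P, wd q c f z.1 * wd q c f z.2 ≤ T₀ := by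
  classical
  have hinj : Set.InjOn (fun z : (ZMod q × α × α) × (ZMod q × α × α) => (tri q z.1, tri q z.2))
      (P : Set ((ZMod q × α × α) × (ZMod q × α × α))) := by
    intro z hz z' hz' heq
    rw [Finset.mem_coe] at hz hz'
    obtain ⟨-, -, ⟨a1, a2⟩, -⟩ := hP z hz
    obtain ⟨-, -, ⟨b1, b2⟩, -⟩ := hP z' hz'
    simp only [tri, Prod.mk.injEq] at heq
    obtain ⟨⟨c1, c2, c3⟩, ⟨c4, c5, c6⟩⟩ := heq
    rw [c1, b1] at a1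
    rw [c4, b2] at a2
    have d1 : z.1.1 = z'.1.1 := by
      have := congrArg (fun x => s * x) a1
      simp only [← mul_assoc, hs, one_mul] at this
      exact this.symm
    have d2 : z.2.1 = z'.2.1 := by
      have := congrArg (fun x => s' * x) a2
      simp only [← mul_assoc, hs', one_mul] at this
      exact this.symm
    exact Prod.ext (Prod.ext d1 (Prod.ext c3 c2)) (Prod.ext d2 (Prod.ext c6 c5))
  have h1 := h (P.image (fun z => (tri q z.1, tri q z.2))) (by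
    intro w hw
    rw [Finset.mem_image] at hw
    obtain ⟨z, hz, rfl⟩ := hw
    obtain ⟨⟨n1, n2⟩, ⟨m1, m2, m3, m4⟩, ⟨a1, a2⟩, r⟩ := hP z hz
    refine ⟨⟨mu_mem hq3 n1, mu_mem hq3 n2⟩, ⟨m2, m1, m4, m3⟩, ?_⟩
    simp only [tri]
    rw [a1, a2]
    have f1 : (ρ z.1.2.1 * (ρ z.1.2.2)⁻¹)⁻¹ = ρ z.1.2.2 * (ρ z.1.2.1)⁻¹ := by
      rw [mul_inv_rev, inv_inv]
    have f2 : (ρ z.2.2.1 * (ρ z.2.2.2)⁻¹)⁻¹ = ρ z.2.2.2 * (ρ z.2.2.1)⁻¹ := by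
      rw [mul_inv_rev, inv_inv]
    rw [f1, f2] at r
    rw [mul_assoc, r, he]
    ring)
  rw [Finset.sum_image hinj] at h1
  refine le_trans (le_of_eq ?_) h1
  apply Finset.sum_congr rfl
  intro z _
  unfold wd tri
  simp only
  ring

/-- **the pairs of terms of the dual sum** -/
theorem dual_pairs (hq3 : 3 ≤ q) (S T : Finset α) (ρ : α → (ZMod q)ˣ) (f : α → ℝ)
    (hf : ∀ a, 0 ≤ f a) (c : ℕ → ℝ) (hc : ∀ m, 0 ≤ c m) (C : ZMod q → ℂ)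
    (hC : ∀ m : ZMod q, m ≠ 0 → ‖C m‖ ≤ c (mu q m)) {T1 T2 : ℝ}
    (h1 : ∀ 𝒥 : Finset ((ℕ × α × α) × (ℕ × α × α)), (∀ z ∈ 𝒥,
      (z.1.1 ∈ Finset.Icc 1 ((q - 1) / 2) ∧ z.2.1 ∈ Finset.Icc 1 ((q - 1) / 2)) ∧
      (z.1.2.1 ∈ T ∧ z.1.2.2 ∈ S ∧ z.2.2.1 ∈ T ∧ z.2.2.2 ∈ S) ∧
      ((z.1.1 : ZMod q) * ((ρ z.1.2.1 * (ρ z.1.2.2)⁻¹ : (ZMod q)ˣ) : ZMod q) =
        (z.2.1 : ZMod q) * ((ρ z.2.2.1 * (ρ z.2.2.2)⁻¹ : (ZMod q)ˣ) : ZMod q))) →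
      ∑ z ∈ 𝒥, (c z.1.1 * (f z.1.2.1 * f z.1.2.2)) * (c z.2.1 * (f z.2.2.1 * f z.2.2.2)) ≤ T1)
    (h2 : ∀ 𝒥 : Finset ((ℕ × α × α) × (ℕ × α × α)), (∀ z ∈ 𝒥,
      (z.1.1 ∈ Finset.Icc 1 ((q - 1) / 2) ∧ z.2.1 ∈ Finset.Icc 1 ((q - 1) / 2)) ∧
      (z.1.2.1 ∈ T ∧ z.1.2.2 ∈ S ∧ z.2.2.1 ∈ T ∧ z.2.2.2 ∈ S) ∧
      ((z.1.1 : ZMod q) * ((ρ z.1.2.1 * (ρ z.1.2.2)⁻¹ : (ZMod q)ˣ) : ZMod q) =
        -((z.2.1 : ZMod q) * ((ρ z.2.2.1 * (ρ z.2.2.2)⁻¹ : (ZMod q)ˣ) : ZMod q)))) →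
      ∑ z ∈ 𝒥, (c z.1.1 * (f z.1.2.1 * f z.1.2.2)) * (c z.2.1 * (f z.2.2.1 * f z.2.2.2)) ≤ T2)
    (J : Finset (ZMod q × α × α))
    (hJ : J = (Finset.univ.erase 0 : Finset (ZMod q)) ×ˢ (S ×ˢ T)) :
    ∑ z ∈ (J ×ˢ J).filter (fun z =>
        z.1.1 * (((ρ z.1.2.1 * (ρ z.1.2.2)⁻¹)⁻¹ : (ZMod q)ˣ) : ZMod q) =
          z.2.1 * (((ρ z.2.2.1 * (ρ z.2.2.2)⁻¹)⁻¹ : (ZMod q)ˣ) : ZMod q)),
      (‖C z.1.1‖ * (f z.1.2.1 * f z.1.2.2)) * (‖C z.2.1‖ * (f z.2.2.1 * f z.2.2.2))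
      ≤ 2 * T1 + 2 * T2 := by
  classical
  set P := (J ×ˢ J).filter (fun z =>
        z.1.1 * (((ρ z.1.2.1 * (ρ z.1.2.2)⁻¹)⁻¹ : (ZMod q)ˣ) : ZMod q) =
          z.2.1 * (((ρ z.2.2.1 * (ρ z.2.2.2)⁻¹)⁻¹ : (ZMod q)ˣ) : ZMod q)) with hP
  have hPm : ∀ z ∈ P, (z.1.1 ≠ 0 ∧ z.2.1 ≠ 0) ∧
      (z.1.2.1 ∈ S ∧ z.1.2.2 ∈ T ∧ z.2.2.1 ∈ S ∧ z.2.2.2 ∈ T) ∧
      (z.1.1 * (((ρ z.1.2.1 * (ρ z.1.2.2)⁻¹)⁻¹ : (ZMod q)ˣ) : ZMod q) =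
        z.2.1 * (((ρ z.2.2.1 * (ρ z.2.2.2)⁻¹)⁻¹ : (ZMod q)ˣ) : ZMod q)) := by
    intro z hz
    rw [hP, Finset.mem_filter, Finset.mem_product, hJ] at hz
    simp only [Finset.mem_product, Finset.mem_erase, Finset.mem_univ, and_true] at hz
    obtain ⟨⟨⟨a1, a2, a3⟩, ⟨b1, b2, b3⟩⟩, r⟩ := hz
    exact ⟨⟨a1, b1⟩, ⟨a2, a3, b2, b3⟩, r⟩
  have hle : ∑ z ∈ P, (‖C z.1.1‖ * (f z.1.2.1 * f z.1.2.2)) * (‖C z.2.1‖ * (f z.2.2.1 * f z.2.2.2))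
      ≤ ∑ z ∈ P, wd q c f z.1 * wd q c f z.2 := by
    apply Finset.sum_le_sum
    intro z hz
    obtain ⟨⟨n1, n2⟩, -, -⟩ := hPm z hz
    have g1 : ‖C z.1.1‖ * (f z.1.2.1 * f z.1.2.2) ≤ wd q c f z.1 :=
      mul_le_mul_of_nonneg_right (hC _ n1) (mul_nonneg (hf _) (hf _))
    have g2 : ‖C z.2.1‖ * (f z.2.2.1 * f z.2.2.2) ≤ wd q c f z.2 :=
      mul_le_mul_of_nonneg_right (hC _ n2) (mul_nonneg (hf _) (hf _))
    exact mul_le_mul g1 g2 (mul_nonneg (norm_nonneg _) (mul_nonneg (hf _) (hf _)))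
      (mul_nonneg (hc _) (mul_nonneg (hf _) (hf _)))
  refine hle.trans ?_
  set A : (ZMod q × α × α) × (ZMod q × α × α) → Prop := fun z => z.1.1.val ≤ q - z.1.1.val with hA
  set B : (ZMod q × α × α) × (ZMod q × α × α) → Prop := fun z => z.2.1.val ≤ q - z.2.1.val with hB
  rw [← Finset.sum_filter_add_sum_filter_not P A,
    ← Finset.sum_filter_add_sum_filter_not (P.filter A) B,
    ← Finset.sum_filter_add_sum_filter_not (P.filter (fun z => ¬ A z)) B]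
  have h1' : ∀ 𝒥 : Finset ((ℕ × α × α) × (ℕ × α × α)), (∀ z ∈ 𝒥,
      (z.1.1 ∈ Finset.Icc 1 ((q - 1) / 2) ∧ z.2.1 ∈ Finset.Icc 1 ((q - 1) / 2)) ∧
      (z.1.2.1 ∈ T ∧ z.1.2.2 ∈ S ∧ z.2.2.1 ∈ T ∧ z.2.2.2 ∈ S) ∧
      ((z.1.1 : ZMod q) * ((ρ z.1.2.1 * (ρ z.1.2.2)⁻¹ : (ZMod q)ˣ) : ZMod q) =
        1 * ((z.2.1 : ZMod q) * ((ρ z.2.2.1 * (ρ z.2.2.2)⁻¹ : (ZMod q)ˣ) : ZMod q)))) →
      ∑ z ∈ 𝒥, (c z.1.1 * (f z.1.2.1 * f z.1.2.2)) * (c z.2.1 * (f z.2.2.1 * f z.2.2.2)) ≤ T1 := by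
    intro 𝒥 h𝒥
    apply h1 𝒥
    intro z hz
    have := h𝒥 z hz
    rwa [one_mul] at this
  have h2' : ∀ 𝒥 : Finset ((ℕ × α × α) × (ℕ × α × α)), (∀ z ∈ 𝒥,
      (z.1.1 ∈ Finset.Icc 1 ((q - 1) / 2) ∧ z.2.1 ∈ Finset.Icc 1 ((q - 1) / 2)) ∧
      (z.1.2.1 ∈ T ∧ z.1.2.2 ∈ S ∧ z.2.2.1 ∈ T ∧ z.2.2.2 ∈ S) ∧
      ((z.1.1 : ZMod q) * ((ρ z.1.2.1 * (ρ z.1.2.2)⁻¹ : (ZMod q)ˣ) : ZMod q) =
        (-1) * ((z.2.1 : ZMod q) * ((ρ z.2.2.1 * (ρ z.2.2.2)⁻¹ : (ZMod q)ˣ) : ZMod q)))) →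
      ∑ z ∈ 𝒥, (c z.1.1 * (f z.1.2.1 * f z.1.2.2)) * (c z.2.1 * (f z.2.2.1 * f z.2.2.2)) ≤ T2 := by
    intro 𝒥 h𝒥
    apply h2 𝒥
    intro z hz
    have := h𝒥 z hz
    rwa [neg_one_mul] at this
  have k1 := class_bound hq3 S T ρ f c (s := 1) (s' := 1) (e := 1) (by ring) (by ring) (by ring) h1'
    ((P.filter A).filter B) (by
      intro z hz
      rw [Finset.mem_filter, Finset.mem_filter] at hz
      obtain ⟨⟨hz, a⟩, b⟩ := hz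
      obtain ⟨n, m, r⟩ := hPm z hz
      refine ⟨n, m, ⟨?_, ?_⟩, r⟩
      · rw [one_mul]; exact mu_cast _ a
      · rw [one_mul]; exact mu_cast _ b)
  have k2 := class_bound hq3 S T ρ f c (s := 1) (s' := -1) (e := -1) (by ring) (by ring) (by ring) h2'
    ((P.filter A).filter (fun z => ¬ B z)) (by
      intro z hz
      rw [Finset.mem_filter, Finset.mem_filter] at hz
      obtain ⟨⟨hz, a⟩, b⟩ := hz
      obtain ⟨n, m, r⟩ := hPm z hz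
      refine ⟨n, m, ⟨?_, ?_⟩, r⟩
      · rw [one_mul]; exact mu_cast _ a
      · rw [neg_one_mul]; exact mu_cast' _ b)
  have k3 := class_bound hq3 S T ρ f c (s := -1) (s' := 1) (e := -1) (by ring) (by ring) (by ring) h2'
    ((P.filter (fun z => ¬ A z)).filter B) (by
      intro z hz
      rw [Finset.mem_filter, Finset.mem_filter] at hz
      obtain ⟨⟨hz, a⟩, b⟩ := hz
      obtain ⟨n, m, r⟩ := hPm z hz
      refine ⟨n, m, ⟨?_, ?_⟩, r⟩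
      · rw [neg_one_mul]; exact mu_cast' _ a
      · rw [one_mul]; exact mu_cast _ b)
  have k4 := class_bound hq3 S T ρ f c (s := -1) (s' := -1) (e := 1) (by ring) (by ring) (by ring) h1'
    ((P.filter (fun z => ¬ A z)).filter (fun z => ¬ B z)) (by
      intro z hz
      rw [Finset.mem_filter, Finset.mem_filter] at hz
      obtain ⟨⟨hz, a⟩, b⟩ := hz
      obtain ⟨n, m, r⟩ := hPm z hz
      refine ⟨n, m, ⟨?_, ?_⟩, r⟩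
      · rw [neg_one_mul]; exact mu_cast' _ a
      · rw [neg_one_mul]; exact mu_cast' _ b)
  linarith

end dual

end Pool.Agent.H.MP_3e6494_nt.h26t
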