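import Mathlib
import Pool.Agent.H.MP_3e6494_nt.h26t.Level

/-!
The exceptional primes of one dyadic level: the two sets of `Level` together, with the final
exponent.
-/

open Finset Filter

set_option linter.unusedSectionVars false
set_option linter.unusedVariables false

namespace Pool.Agent.H.MP_3e6494_nt.h26t

open Pool.Agent.H.MP_3e6494_nt.T3Prime Pool.Agent.H.MP_3e6494_nt.T3Exc
  Pool.Agent.H.MP_3e6494_nt.T3Cnt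

lemma sq_le_pow (C ε : ℝ) (hε : 0 < ε) : ∀ᶠ k : ℕ in atTop, C * (k : ℝ) ^ 2 ≤ ((2 : ℝ) ^ k) ^ ε := by
  have hr : (1 : ℝ) < 2 ^ ε := Real.one_lt_rpow (by norm_num) hε
  have h1 := (tendsto_pow_const_div_const_pow_of_one_lt 2 hr).const_mul C
  rw [mul_zero] at h1
  filter_upwards [h1.eventually_lt_const (show (0 : ℝ) < 1 by norm_num)] with k hk
  have hp : (0 : ℝ) < ((2 : ℝ) ^ ε) ^ k := by positivity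
  have e1 : ((2 : ℝ) ^ k) ^ ε = ((2 : ℝ) ^ ε) ^ k := by
    rw [← Real.rpow_natCast (2 : ℝ) k, ← Real.rpow_mul (by norm_num), ← Real.rpow_natCast,
      ← Real.rpow_mul (by norm_num), mul_comm]
  rw [e1]
  rw [mul_div_assoc', div_lt_one hp] at hk
  exact hk.le

/-- the numerical estimate -/
theorem numerics (κ ν ε : ℝ) (r : ℕ) (hr : 1 ≤ r) (hν : 0 < ν) (hε : 0 < ε) (hεν : ε < ν) :
    ∀ᶠ k : ℕ in atTop, ∀ Fc Z : ℝ, 0 ≤ Fc → Fc ≤ Z * (2 * Real.exp (Vk ν ε k)) ^ 2 →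
      Z ≤ ((2 : ℝ) ^ k) ^ (2 * ν) →
      Fc ^ r * (r * ((5 * k ^ 2 : ℕ) : ℝ) * (4 * 3 ^ r)) * ((2 : ℝ) ^ k) ^ (κ * (1 + 1 / r)) +
      (((3 * k : ℕ) : ℝ) + 1) ^ 2 * (r * (4 * 3 ^ r)) *
        ((2 : ℝ) ^ k) ^ ((2 * ν - ε) * (r + 1) + κ * (1 + 1 / r)) ≤
      ((2 : ℝ) ^ k) ^ (κ * (1 + 1 / r) + 4 * r * ν - ε) := by
  have hr1 : (1 : ℝ) ≤ r := by exact_mod_cast hr
  filter_upwards [sq_le_pow (4 ^ r * (r * 5 * (4 * 3 ^ r)) + 16 * (r * (4 * 3 ^ r))) ε hε,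
    eventually_ge_atTop 1] with k hk hk1
  intro Fc Z hFc hF hZ
  set Q : ℝ := (2 : ℝ) ^ k with hQ
  have hQ1 : 1 ≤ Q := one_le_pow₀ (by norm_num)
  have hQ0 : 0 < Q := by linarith
  have hk1' : (1 : ℝ) ≤ k := by exact_mod_cast hk1
  have hlogQ : Real.log Q = k * Real.log 2 := by rw [hQ, Real.log_pow]
  have hE : Real.exp (Vk ν ε k) = Q ^ (ν - ε) := by
    rw [Real.rpow_def_of_pos hQ0, hlogQ]
    unfold Vk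
    congr 1; ring
  set s0 : ℝ := κ * (1 + 1 / r) + 4 * r * ν with hs0
  have hF2 : Fc ≤ 4 * Q ^ (4 * ν - 2 * ε) := by
    refine hF.trans ?_
    rw [hE]
    have h1 : (2 * Q ^ (ν - ε)) ^ 2 = 4 * Q ^ (2 * (ν - ε)) := by
      rw [mul_pow, ← Real.rpow_natCast (Q ^ (ν - ε)) 2, ← Real.rpow_mul hQ0.le]
      norm_num
      congr 1; ring
    rw [h1]
    calc Z * (4 * Q ^ (2 * (ν - ε))) ≤ Q ^ (2 * ν) * (4 * Q ^ (2 * (ν - ε))) := by gcongr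
      _ = 4 * (Q ^ (2 * ν) * Q ^ (2 * (ν - ε))) := by ring
      _ = 4 * Q ^ (4 * ν - 2 * ε) := by
          rw [← Real.rpow_add hQ0]; congr 2; ring
  have hF3 : Fc ^ r ≤ 4 ^ r * Q ^ (4 * r * ν - 2 * ε) := by
    calc Fc ^ r ≤ (4 * Q ^ (4 * ν - 2 * ε)) ^ r := pow_le_pow_left₀ hFc hF2 r
      _ = 4 ^ r * Q ^ ((4 * ν - 2 * ε) * r) := by
          rw [mul_pow, ← Real.rpow_natCast (Q ^ (4 * ν - 2 * ε)) r, ← Real.rpow_mul hQ0.le]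
      _ ≤ 4 ^ r * Q ^ (4 * r * ν - 2 * ε) := by
          apply mul_le_mul_of_nonneg_left _ (by positivity)
          apply Real.rpow_le_rpow_of_exponent_le hQ1
          nlinarith
  have h1 : Fc ^ r * (r * ((5 * k ^ 2 : ℕ) : ℝ) * (4 * 3 ^ r)) * Q ^ (κ * (1 + 1 / r))
      ≤ (4 ^ r * (r * 5 * (4 * 3 ^ r))) * (k : ℝ) ^ 2 * Q ^ (s0 - 2 * ε) := by
    calc Fc ^ r * (r * ((5 * k ^ 2 : ℕ) : ℝ) * (4 * 3 ^ r)) * Q ^ (κ * (1 + 1 / r))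
        ≤ (4 ^ r * Q ^ (4 * r * ν - 2 * ε)) * (r * ((5 * k ^ 2 : ℕ) : ℝ) * (4 * 3 ^ r)) *
            Q ^ (κ * (1 + 1 / r)) := by gcongr
      _ = (4 ^ r * (r * 5 * (4 * 3 ^ r))) * (k : ℝ) ^ 2 *
            (Q ^ (4 * r * ν - 2 * ε) * Q ^ (κ * (1 + 1 / r))) := by push_cast; ring
      _ = _ := by
          rw [← Real.rpow_add hQ0]
          congr 2
          rw [hs0]; ring
  have h2 : (((3 * k : ℕ) : ℝ) + 1) ^ 2 * (r * (4 * 3 ^ r)) *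
        Q ^ ((2 * ν - ε) * (r + 1) + κ * (1 + 1 / r))
      ≤ (16 * (r * (4 * 3 ^ r))) * (k : ℝ) ^ 2 * Q ^ (s0 - 2 * ε) := by
    have h3 : (((3 * k : ℕ) : ℝ) + 1) ^ 2 ≤ 16 * (k : ℝ) ^ 2 := by
      push_cast
      nlinarith
    have h4 : Q ^ ((2 * ν - ε) * (r + 1) + κ * (1 + 1 / r)) ≤ Q ^ (s0 - 2 * ε) := by
      apply Real.rpow_le_rpow_of_exponent_le hQ1
      rw [hs0]
      nlinarith
    calc (((3 * k : ℕ) : ℝ) + 1) ^ 2 * (r * (4 * 3 ^ r)) *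
        Q ^ ((2 * ν - ε) * (r + 1) + κ * (1 + 1 / r))
        ≤ (16 * (k : ℝ) ^ 2) * (r * (4 * 3 ^ r)) * Q ^ (s0 - 2 * ε) := by gcongr
      _ = _ := by ring
  calc Fc ^ r * (r * ((5 * k ^ 2 : ℕ) : ℝ) * (4 * 3 ^ r)) * Q ^ (κ * (1 + 1 / r)) +
      (((3 * k : ℕ) : ℝ) + 1) ^ 2 * (r * (4 * 3 ^ r)) *
        Q ^ ((2 * ν - ε) * (r + 1) + κ * (1 + 1 / r))
      ≤ ((4 ^ r * (r * 5 * (4 * 3 ^ r)) + 16 * (r * (4 * 3 ^ r))) * (k : ℝ) ^ 2) *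
          Q ^ (s0 - 2 * ε) := by linarith
    _ ≤ Q ^ ε * Q ^ (s0 - 2 * ε) := by gcongr
    _ = Q ^ (s0 - ε) := by rw [← Real.rpow_add hQ0]; congr 1; ring

/-- the length of the short range -/
noncomputable def Zr (ν : ℝ) (k : ℕ) : ℕ := ⌊((2 : ℝ) ^ k) ^ (2 * ν)⌋₊

lemma Zr_le (ν : ℝ) (k : ℕ) : (Zr ν k : ℝ) ≤ ((2 : ℝ) ^ k) ^ (2 * ν) := Nat.floor_le (by positivity)

/-- the numerical estimate, for the family of a resonator -/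
theorem num_exc (κ ν ε : ℝ) (r : ℕ) (hr : 1 ≤ r) (h0 : 0 ≤ κ) (hk1 : κ ≤ 1) (hν : 0 < ν)
    (hε : 0 < ε) (h32 : 32 * ε ≤ ν) (hs : κ * (1 + 1 / r) + 4 * r * ν < 1) :
    ∀ᶠ k : ℕ in atTop, ((Zr ν k : ℝ) * (2 * Real.exp (Vk ν ε k)) ^ 2) ^ r *
        (r * ((5 * k ^ 2 : ℕ) : ℝ) * (4 * 3 ^ r)) * ((2 : ℝ) ^ k) ^ (κ * (1 + 1 / r)) +
      (((3 * k : ℕ) : ℝ) + 1) ^ 2 * (r * (4 * 3 ^ r)) *
        ((2 : ℝ) ^ k) ^ ((2 * ν - ε) * (r + 1) + κ * (1 + 1 / r)) ≤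
      ((2 : ℝ) ^ k) ^ (κ * (1 + 1 / r) + 4 * r * ν - ε) := by
  filter_upwards [numerics κ ν ε r hr hν hε (by linarith)] with k hk
  exact hk _ _ (by positivity) le_rfl (Zr_le ν k)

/-- the exceptional set of one level -/
theorem level_all (κ ν ε : ℝ) (hκ0 : 0 ≤ κ) (hκ1 : κ ≤ 1) (r : ℕ) (hr : 1 ≤ r) (hν : 0 < ν)
    (hε : 0 < ε) (hεν : ε < ν) :
    ∀ᶠ k : ℕ in atTop, ∀ (Φ : Finset (ℕ × ℕ)) (Z : ℕ),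
      (Φ.card : ℝ) ≤ Z * (2 * Real.exp (Vk ν ε k)) ^ 2 →
      (Z : ℝ) ≤ ((2 : ℝ) ^ k) ^ (2 * ν) →
      (∀ z ∈ Φ, (z.1 ≠ 0 ∧ z.2 ≠ 0) ∧ z.1 ≤ 2 ^ (5 * k ^ 2) ∧ z.2 ≤ 2 ^ (5 * k ^ 2)) →
      ∃ 𝒮 : Finset ℕ, (𝒮.card : ℝ) ≤ ((2 : ℝ) ^ k) ^ (κ * (1 + 1 / r) + 4 * r * ν - ε) ∧
      ∀ (q : ℕ) [Fact q.Prime], q < 2 ^ (k + 1) → q ∉ 𝒮 → ∀ K : Subgroup (ZMod q)ˣ,
        ((Nat.card K : ℕ) : ℝ) ≤ (q : ℝ) ^ κ →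
        (∃ P : Finset ℕ, P.card < r ∧
          (∀ p ∈ P, p.Prime ∧ ∃ z ∈ Φ, z.1.Coprime q ∧ z.2.Coprime q ∧ (p ∣ z.1 ∨ p ∣ z.2)) ∧
          ∀ z ∈ Φ, z.1.Coprime q → z.2.Coprime q →
          u q z.1 * (u q z.2)⁻¹ ∈ K → (∀ p ∈ P, z.1.factorization p = z.2.factorization p) →
            z.1 = z.2) ∧
        ∀ c : (ZMod q)ˣ, ∀ X Y : ℕ, X ≤ 2 ^ (3 * k) → 1 ≤ Y →
          ∑ n ∈ (A K (u q) c X).filter (fun n => Y < n), (1 / (n : ℝ))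
            ≤ 4 * (((3 * k : ℕ) : ℝ) + 1) * (((((3 * k : ℕ) : ℝ) + 1) ^ (r - 1) + 1) / Y +
              ((2 : ℝ) ^ k) ^ (-(2 * ν - ε))) := by
  classical
  filter_upwards [numerics κ ν ε r hr hν hε hεν] with k hk
  intro Φ Z hΦc hZ hΦ
  obtain ⟨𝒮₁, a1, a2⟩ := pivots_level κ hκ0 hκ1 r k hr Φ (5 * k ^ 2) hΦ
  obtain ⟨𝒮₂, b1, b2⟩ := tail_level κ (2 * ν - ε) hκ0 hκ1 (by linarith) r k (3 * k) hr
  refine ⟨𝒮₁ ∪ 𝒮₂, ?_, ?_⟩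
  · have h1 : ((𝒮₁ ∪ 𝒮₂).card : ℝ) ≤ 𝒮₁.card + 𝒮₂.card := by
      exact_mod_cast Finset.card_union_le _ _
    have h2 := hk Φ.card Z (Nat.cast_nonneg _) hΦc hZ
    linarith
  · intro q _ hq hqS K hK
    rw [Finset.mem_union, not_or] at hqS
    exact ⟨a2 q hq hqS.1 K hK, b2 q hq hqS.2 K hK⟩

end Pool.Agent.H.MP_3e6494_nt.h26t
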