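import Mathlib
import Pool.Agent.H.MP_3e6494_nt.h26t.Num
import Pool.Agent.H.MP_3e6494_nt.helper14.ResoRDef

/-!
The exceptional primes of one dyadic level for a resonator.
-/

open Finset Filter

set_option linter.unusedSectionVars false
set_option linter.unusedVariables false

namespace Pool.Agent.H.MP_3e6494_nt.h26t

open Pool.Agent.H.MP_3e6494_nt.T3Prime Pool.Agent.H.MP_3e6494_nt.T3Exc
  Pool.Agent.H.MP_3e6494_nt.T3Cnt

lemma one_le_Zr {ν : ℝ} (hν : 0 < ν) (k : ℕ) : 1 ≤ Zr ν k := by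
  unfold Zr
  apply Nat.le_floor
  rw [Nat.cast_one]
  exact Real.one_le_rpow (one_le_pow₀ (by norm_num)) (by linarith)

/-- the exceptional set of one level, for a resonator -/
theorem level_reso (κ ν ε : ℝ) (hκ0 : 0 ≤ κ) (hκ1 : κ ≤ 1) (r r' : ℕ) (hr : 1 ≤ r) (hν : 0 < ν)
    (hν2 : 2 * ν ≤ 1) (hε : 0 < ε) (hεν : ε < ν) :
    ∀ᶠ k : ℕ in atTop, ∀ (G : ℝ) (R : H14.ResoR r' (Vk ν ε k) G),
      ∃ 𝒮 : Finset ℕ, (𝒮.card : ℝ) ≤ ((2 : ℝ) ^ k) ^ (κ * (1 + 1 / r) + 4 * r * ν - ε) ∧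
      ∀ (q : ℕ) [Fact q.Prime], Nat.log 2 q = k → q ∉ 𝒮 → ∀ K : Subgroup (ZMod q)ˣ,
        ((Nat.card K : ℕ) : ℝ) ≤ (q : ℝ) ^ κ →
        (∃ P : Finset ℕ, P.card < r ∧
          (∀ p ∈ P, p.Prime ∧ p.Coprime q ∧ (p : ℝ) ≤ ((2 : ℝ) ^ k) ^ (2 * ν)) ∧
          ∀ m ∈ Finset.Icc 1 (Zr ν k), m.Coprime q → ∀ a b : R.α, (a ∈ R.S ∨ a ∈ R.T) →
            (b ∈ R.S ∨ b ∈ R.T) → (∀ p ∈ P, ¬ p ∣ m ∧ ¬ p ∣ R.nu a ∧ ¬ p ∣ R.de a ∧ ¬ p ∣ R.nu b ∧
              ¬ p ∣ R.de b) →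
            u q m * (u q (R.nu a) * (u q (R.de a))⁻¹) * (u q (R.nu b) * (u q (R.de b))⁻¹)⁻¹ ∈ K →
            m * R.nu a * R.de b = R.de a * R.nu b) ∧
        ∀ c : (ZMod q)ˣ, ∀ X Y : ℕ, X ≤ 2 ^ (3 * k) → 1 ≤ Y →
          ∑ n ∈ (A K (u q) c X).filter (fun n => Y < n), (1 / (n : ℝ))
            ≤ 4 * (((3 * k : ℕ) : ℝ) + 1) * (((((3 * k : ℕ) : ℝ) + 1) ^ (r - 1) + 1) / Y +
              ((2 : ℝ) ^ k) ^ (-(2 * ν - ε))) := by
  classical
  have hl2 : 0 < Real.log 2 := Real.log_pos (by norm_num)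
  have hl21 : Real.log 2 < 1 := by linarith [Real.log_two_lt_d9]
  filter_upwards [level_all κ ν ε hκ0 hκ1 r hr hν hε hεν, sq_le_pow 1 (2 * ν) (by linarith),
    sq_le_pow 1 1 one_pos, eventually_ge_atTop 1] with k hk hk2 hk3 hk1
  intro G R
  have hk1' : (1 : ℝ) ≤ k := by exact_mod_cast hk1
  have hVnn : 0 ≤ Vk ν ε k := by
    unfold Vk
    have : 0 < ν - ε := by linarith
    positivity
  have hVlt : Vk ν ε k < k := by
    unfold Vk
    have h1 : ν - ε < 1 := by linarith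
    have h2 : (k : ℝ) * Real.log 2 < k := by nlinarith
    have h3 : 0 < (k : ℝ) * Real.log 2 := by positivity
    nlinarith
  have hV2 : (Vk ν ε k) ^ 2 < (k : ℝ) ^ 2 := by nlinarith
  have hM : ⌊(Vk ν ε k) ^ 2⌋₊ ≤ k ^ 2 := by
    apply Nat.floor_le_of_le
    push_cast
    exact hV2.le
  set Z := Zr ν k with hZdef
  have hZ : (Z : ℝ) ≤ ((2 : ℝ) ^ k) ^ (2 * ν) := Nat.floor_le (by positivity)
  have hZ2 : Z ≤ 2 ^ k := by
    have h1 : (Z : ℝ) ≤ ((2 : ℝ) ^ k) ^ (1 : ℝ) :=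
      hZ.trans (Real.rpow_le_rpow_of_exponent_le (one_le_pow₀ (by norm_num)) hν2)
    rw [Real.rpow_one] at h1
    exact_mod_cast h1
  set U : Finset R.α := R.S ∪ R.T with hU
  have hUc : (U.card : ℝ) ≤ 2 * Real.exp (Vk ν ε k) := by
    have h1 : U.card ≤ R.S.card + R.T.card := Finset.card_union_le _ _
    have h2 : (U.card : ℝ) ≤ R.S.card + R.T.card := by exact_mod_cast h1
    linarith [R.cardS, R.cardT]
  set Φ : Finset (ℕ × ℕ) := ((Finset.Icc 1 Z) ×ˢ (U ×ˢ U)).image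
    (fun t => (t.1 * R.nu t.2.1 * R.de t.2.2, R.de t.2.1 * R.nu t.2.2)) with hΦ
  have hΦc : (Φ.card : ℝ) ≤ Z * (2 * Real.exp (Vk ν ε k)) ^ 2 := by
    have h1 : Φ.card ≤ Z * (U.card * U.card) := by
      refine Finset.card_image_le.trans ?_
      rw [Finset.card_product, Finset.card_product, Nat.card_Icc]
      simp
    have h2 : (Φ.card : ℝ) ≤ Z * ((U.card : ℝ) * U.card) := by exact_mod_cast h1
    refine h2.trans ?_
    rw [sq]
    gcongr
  have hmemΦ : ∀ z ∈ Φ, ∃ m a b, m ∈ Finset.Icc 1 Z ∧ (a ∈ R.S ∨ a ∈ R.T) ∧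
      (b ∈ R.S ∨ b ∈ R.T) ∧ z = (m * R.nu a * R.de b, R.de a * R.nu b) := by
    intro z hz
    rw [hΦ, Finset.mem_image] at hz
    obtain ⟨⟨m, a, b⟩, h1, h2⟩ := hz
    rw [Finset.mem_product, Finset.mem_product] at h1
    obtain ⟨h3, h4, h5⟩ := h1
    simp only at h3 h4 h5
    rw [hU, Finset.mem_union] at h4 h5
    exact ⟨m, a, b, h3, h4, h5, h2.symm⟩
  have hsize : ∀ z ∈ Φ, (z.1 ≠ 0 ∧ z.2 ≠ 0) ∧ z.1 ≤ 2 ^ (5 * k ^ 2) ∧ z.2 ≤ 2 ^ (5 * k ^ 2) := by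
    intro z hz
    obtain ⟨m, a, b, hm, ha, hb, rfl⟩ := hmemΦ z hz
    rw [Finset.mem_Icc] at hm
    obtain ⟨p1, p2⟩ := R.pos a ha
    obtain ⟨p3, p4⟩ := R.pos b hb
    obtain ⟨s1, s2⟩ := R.size a ha
    obtain ⟨s3, s4⟩ := R.size b hb
    have hbd : 2 ^ k * (4 ^ ⌊(Vk ν ε k) ^ 2⌋₊ * 4 ^ ⌊(Vk ν ε k) ^ 2⌋₊) ≤ 2 ^ (5 * k ^ 2) := by
      calc 2 ^ k * (4 ^ ⌊(Vk ν ε k) ^ 2⌋₊ * 4 ^ ⌊(Vk ν ε k) ^ 2⌋₊)
          ≤ 2 ^ k * (4 ^ (k ^ 2) * 4 ^ (k ^ 2)) := by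
            apply Nat.mul_le_mul le_rfl
            exact Nat.mul_le_mul (Nat.pow_le_pow_right (by norm_num) hM)
              (Nat.pow_le_pow_right (by norm_num) hM)
        _ = 2 ^ (k + 4 * k ^ 2) := by
            rw [show (4 : ℕ) = 2 ^ 2 by norm_num, ← pow_mul, ← pow_add, ← pow_add]
            congr 1; ring
        _ ≤ 2 ^ (5 * k ^ 2) := by
            apply Nat.pow_le_pow_right (by norm_num)
            nlinarith
    refine ⟨⟨?_, ?_⟩, ?_, ?_⟩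
    · simp only
      have : 0 < m * R.nu a * R.de b := Nat.mul_pos (Nat.mul_pos (by omega) p1) p4
      omega
    · simp only
      have : 0 < R.de a * R.nu b := Nat.mul_pos p2 p3
      omega
    · simp only
      refine le_trans ?_ hbd
      rw [mul_assoc]
      exact Nat.mul_le_mul (hm.2.trans hZ2) (Nat.mul_le_mul s1 s4)
    · simp only
      refine le_trans ?_ hbd
      calc R.de a * R.nu b ≤ 4 ^ ⌊(Vk ν ε k) ^ 2⌋₊ * 4 ^ ⌊(Vk ν ε k) ^ 2⌋₊ :=
            Nat.mul_le_mul s2 s3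
        _ = 1 * (4 ^ ⌊(Vk ν ε k) ^ 2⌋₊ * 4 ^ ⌊(Vk ν ε k) ^ 2⌋₊) := (one_mul _).symm
        _ ≤ _ := Nat.mul_le_mul_right _ (Nat.one_le_two_pow)
  obtain ⟨𝒮, a1, a2⟩ := hk Φ Z hΦc hZ hsize
  refine ⟨𝒮, a1, ?_⟩
  intro q hqp hqk hqS K hK
  have hqpr : q.Prime := hqp.out
  have hq2 : q < 2 ^ (k + 1) := by
    rw [← hqk]; exact Nat.lt_pow_succ_log_self (by norm_num) q
  have hqlow : 2 ^ k ≤ q := by
    rw [← hqk]; exact Nat.pow_log_le_self 2 hqpr.ne_zero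
  have hVq : (Vk ν ε k) ^ 2 < q := by
    have h1 : (k : ℝ) ^ 2 ≤ (2 : ℝ) ^ k := by
      rw [one_mul, Real.rpow_one] at hk3
      exact hk3
    have h2 : ((2 : ℝ) ^ k) ≤ q := by exact_mod_cast hqlow
    exact lt_of_lt_of_le hV2 (h1.trans h2)
  obtain ⟨⟨P, hP1, hP2, hP3⟩, htail⟩ := a2 q hq2 hqS K hK
  refine ⟨⟨P, hP1, ?_, ?_⟩, htail⟩
  · intro p hp
    obtain ⟨hpp, z, hz, hz1, hz2, hdvd⟩ := hP2 p hp
    obtain ⟨m, a, b, hm, ha, hb, rfl⟩ := hmemΦ z hz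
    simp only at hz1 hz2 hdvd
    rw [Finset.mem_Icc] at hm
    refine ⟨hpp, ?_, ?_⟩
    · rcases hdvd with h | h
      · exact Nat.Coprime.coprime_dvd_left h hz1
      · exact Nat.Coprime.coprime_dvd_left h hz2
    · -- prime factors of the elements of the resonator are small
      have hsmall : ∀ x : R.α, (x ∈ R.S ∨ x ∈ R.T) → (p ∣ R.nu x ∨ p ∣ R.de x) →
          (p : ℝ) ≤ ((2 : ℝ) ^ k) ^ (2 * ν) := by
        intro x hx hdx
        by_contra hcon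
        push Not at hcon
        have h1 : (Vk ν ε k) ^ 2 < p := by
          rw [one_mul] at hk2
          linarith
        obtain ⟨c1, c2⟩ := R.cop x hx p hpp h1
        rcases hdx with h | h
        · exact hpp.one_lt.ne' ((Nat.coprime_self p).1 (Nat.Coprime.coprime_dvd_left h c1))
        · exact hpp.one_lt.ne' ((Nat.coprime_self p).1 (Nat.Coprime.coprime_dvd_left h c2))
      have hm' : p ∣ m → (p : ℝ) ≤ ((2 : ℝ) ^ k) ^ (2 * ν) := by
        intro h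
        have h1 : p ≤ Z := (Nat.le_of_dvd (by omega) h).trans hm.2
        have h2 : (p : ℝ) ≤ Z := by exact_mod_cast h1
        exact h2.trans hZ
      rcases hdvd with h | h
      · rcases (Nat.Prime.dvd_mul hpp).1 h with h | h
        · rcases (Nat.Prime.dvd_mul hpp).1 h with h | h
          · exact hm' h
          · exact hsmall a ha (Or.inl h)
        · exact hsmall b hb (Or.inr h)
      · rcases (Nat.Prime.dvd_mul hpp).1 h with h | h
        · exact hsmall a ha (Or.inr h)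
        · exact hsmall b hb (Or.inl h)
  · intro m hm hmc a b ha hb hndvd hmem
    obtain ⟨ca1, ca2⟩ := R.cop a ha q hqpr hVq
    obtain ⟨cb1, cb2⟩ := R.cop b hb q hqpr hVq
    have hz : (m * R.nu a * R.de b, R.de a * R.nu b) ∈ Φ := by
      rw [hΦ, Finset.mem_image]
      refine ⟨(m, a, b), ?_, rfl⟩
      rw [Finset.mem_product, Finset.mem_product]
      refine ⟨hm, ?_, ?_⟩
      · rw [hU, Finset.mem_union]; exact ha
      · rw [hU, Finset.mem_union]; exact hb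
    have c1 : (m * R.nu a * R.de b).Coprime q := Nat.Coprime.mul_left (Nat.Coprime.mul_left hmc ca1) cb2
    have c2 : (R.de a * R.nu b).Coprime q := Nat.Coprime.mul_left ca2 cb1
    refine hP3 _ hz c1 c2 ?_ ?_
    · simp only
      rw [u_mul (Nat.Coprime.mul_left hmc ca1) cb2, u_mul hmc ca1, u_mul ca2 cb1]
      have e : u q m * u q (R.nu a) * u q (R.de b) * (u q (R.de a) * u q (R.nu b))⁻¹
          = u q m * (u q (R.nu a) * (u q (R.de a))⁻¹) * (u q (R.nu b) * (u q (R.de b))⁻¹)⁻¹ := by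
        rw [mul_inv, mul_inv, inv_inv]
        generalize u q m = x1
        generalize u q (R.nu a) = x2
        generalize u q (R.de b) = x3
        generalize (u q (R.de a))⁻¹ = x4
        generalize (u q (R.nu b))⁻¹ = x5
        rw [mul_comm x5 x3, ← mul_assoc x1 x2 x4, ← mul_assoc, ← mul_assoc,
          mul_right_comm (x1 * x2) x3 x4]
      rw [e]
      exact hmem
    · intro p hp
      obtain ⟨n1, n2, n3, n4, n5⟩ := hndvd p hp
      have hpp := (hP2 p hp).1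
      simp only
      rw [Nat.factorization_eq_zero_of_not_dvd, Nat.factorization_eq_zero_of_not_dvd]
      · intro h
        rcases (Nat.Prime.dvd_mul hpp).1 h with h | h
        · exact n3 h
        · exact n4 h
      · intro h
        rcases (Nat.Prime.dvd_mul hpp).1 h with h | h
        · rcases (Nat.Prime.dvd_mul hpp).1 h with h | h
          · exact n1 h
          · exact n2 h
        · exact n5 h

end Pool.Agent.H.MP_3e6494_nt.h26t
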